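import Mathlib
import Pool.Agent.H588R2.Model

set_option autoImplicit false

/-!
# Bounded-length reachability oracles on the word RAM: definitions
-/

namespace Pool.Agent.U54.KR

open Pool.Agent.H588R2

/-- `Walk E j u v`: the directed graph with edge set `E` has a walk with exactly `j` edges from
`u` to `v`. -/
def Walk {V : Type} (E : Finset (V × V)) (j : ℕ) (u v : V) : Prop :=
  ∃ p : ℕ → V, p 0 = u ∧ p j = v ∧ ∀ i < j, (p i, p (i + 1)) ∈ E

/-- `Reach E k u v`: there is a directed path from `u` to `v` with at most `k` edges. -/
def Reach {V : Type} (E : Finset (V × V)) (k : ℕ) (u v : V) : Prop :=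
  ∃ j ≤ k, Walk E j u v

/-- The start of a query: the program counter and all registers are `0`, except that the registers
`0` and `1` contain the numbers `u`, `v` of the two vertices; the memory contains the data
structure `M`. -/
def start (u v : ℕ) (M : ℕ → ℕ) : Config :=
  ⟨0, ⟨fun r => if r = 0 then u else if r = 1 then v else 0, M⟩⟩

open Classical in
/-- `Oracle k C P n w S T`: with words of `w` bits, the query program `P` and data structures of
`S` words solve the `k`-reachability problem on all directed graphs with the vertices
`0, …, n - 1` and at most `C n` edges, with query time at most `T`. -/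
def Oracle (k : ℕ) (C : ℝ) (P : List Instr) (n w S : ℕ) (T : ℝ) : Prop :=
  ∀ E : Finset (Fin n × Fin n), (E.card : ℝ) ≤ C * n →
    ∃ M : ℕ → ℕ, (∀ a, M a < 2 ^ w) ∧ (∀ a, S ≤ a → M a = 0) ∧
      ∀ u v : Fin n, HaltsWithin w P (start u v M) T (if Reach E k u v then 1 else 0)

/-- The program never writes to the memory. -/
def ReadOnly (P : List Instr) : Prop := ∀ a s, Instr.op (.store a s) ∉ P

end Pool.Agent.U54.KR
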