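import Mathlib

set_option autoImplicit false

/-!
# The numerical core of the tradeoff for bounded-length reachability
-/

namespace Pool.Agent.U54.KR

open Finset

/-- For a sequence of positive integers whose partial sums exceed `M` at `i`, the index `s m` with
`A_{s m} ≤ m < A_{s m + 1}`. -/
theorem exists_index (a : ℕ → ℕ) (i M : ℕ) (hi : M < ∑ r ∈ range i, a r) :
    ∃ s : ℕ → ℕ, ∀ m ≤ M, s m < i ∧ ∑ r ∈ range (s m), a r ≤ m ∧
      m < ∑ r ∈ range (s m + 1), a r := by
  have key : ∀ m ≤ M, ∃ s, s < i ∧ ∑ r ∈ range s, a r ≤ m ∧ m < ∑ r ∈ range (s + 1), a r := by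
    intro m hm
    classical
    have hex : ∃ j, m < ∑ r ∈ range j, a r := ⟨i, lt_of_le_of_lt hm hi⟩
    have h0 : 0 < Nat.find hex := by
      rw [Nat.find_pos]
      simp
    refine ⟨Nat.find hex - 1, ?_, ?_, ?_⟩
    · have := Nat.find_min' hex (lt_of_le_of_lt hm hi)
      omega
    · have := Nat.find_min hex (m := Nat.find hex - 1) (by omega)
      omega
    · have := Nat.find_spec hex
      rwa [show Nat.find hex - 1 + 1 = Nat.find hex by omega]
  choose! s hs using key
  exact ⟨s, hs⟩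

/-- Cauchy-Schwarz: the average over `m ≤ M` of the step that covers `m` is large. -/
theorem sum_steps (a : ℕ → ℕ) (i M : ℕ) (s : ℕ → ℕ)
    (hs : ∀ m ≤ M, s m < i ∧ ∑ r ∈ range (s m), a r ≤ m ∧ m < ∑ r ∈ range (s m + 1), a r) :
    (M + 1) ^ 2 ≤ i * ∑ m ∈ range (M + 1), a (s m) := by
  classical
  set cnt : ℕ → ℕ := fun r => ((range (M + 1)).filter fun m => s m = r).card with hcnt
  have hmaps : ∀ m ∈ range (M + 1), s m ∈ range i := by
    intro m hm
    rw [mem_range] at hm ⊢
    exact (hs m (by omega)).1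
  have h1 : ∑ r ∈ range i, cnt r = M + 1 := by
    have := Finset.card_eq_sum_card_fiberwise hmaps
    rw [card_range] at this
    rw [this]
  have h2 : ∀ r, cnt r ≤ a r := by
    intro r
    have hsub : (range (M + 1)).filter (fun m => s m = r) ⊆
        Finset.Ico (∑ q ∈ range r, a q) (∑ q ∈ range r, a q + a r) := by
      intro m hm
      rw [mem_filter, mem_range] at hm
      obtain ⟨hm1, hm2⟩ := hm
      have := hs m (by omega)
      rw [hm2, sum_range_succ] at this
      rw [Finset.mem_Ico]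
      exact this.2
    have := card_le_card hsub
    rw [Nat.card_Ico] at this
    simp only [hcnt]
    omega
  have h3 : ∑ m ∈ range (M + 1), a (s m) = ∑ r ∈ range i, cnt r * a r := by
    rw [← Finset.sum_fiberwise_of_maps_to hmaps]
    refine sum_congr rfl fun r _ => ?_
    rw [Finset.sum_congr rfl (g := fun _ => a r)]
    · rw [sum_const, smul_eq_mul]
    · intro m hm
      rw [mem_filter] at hm
      rw [hm.2]
  have h4 : (∑ r ∈ range i, cnt r) ^ 2 ≤ i * ∑ r ∈ range i, cnt r ^ 2 := by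
    have := sq_sum_le_card_mul_sum_sq (s := range i) (f := cnt)
    rwa [card_range] at this
  rw [h3]
  rw [h1] at h4
  refine h4.trans (Nat.mul_le_mul_left _ (sum_le_sum fun r _ => ?_))
  rw [sq]
  exact Nat.mul_le_mul_left _ (h2 r)

theorem harmonic {i j k : ℕ} (hij : i + j ≤ k) :
    i * j * k ≤ (i + j) * (k ^ 2 / 4) := by
  obtain ⟨l, rfl⟩ := Nat.exists_eq_add_of_le (show i ≤ k by omega)
  have h1 : i * l ≤ (i + l) ^ 2 / 4 := by
    rw [Nat.le_div_iff_mul_le (by norm_num)]
    zify
    nlinarith [sq_nonneg ((i : ℤ) - l)]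
  have h2 : j ≤ l := by omega
  calc i * j * (i + l) ≤ (i + j) * (i * l) := by
        zify
        have : (j : ℤ) ≤ l := by exact_mod_cast h2
        nlinarith [mul_nonneg (mul_nonneg (Nat.cast_nonneg (α := ℤ) i) (Nat.cast_nonneg (α := ℤ) i))
          (sub_nonneg.2 this)]
    _ ≤ (i + j) * ((i + l) ^ 2 / 4) := Nat.mul_le_mul_left _ h1

/-- **Numerical core.** If some degree exponent on a path with `ℓ ≤ k` edges is at least `L - 1`,
then there are a prefix and a suffix of the path, of total cost at most `M`, whose end points have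
degree exponents with sum at least `L`. -/
theorem core_numeric (k M L ℓ : ℕ) (a : ℕ → ℕ) (hℓ : ℓ ≤ k)
    (ha : ∀ r, 1 ≤ a r) (hL : L * (k ^ 2 / 4) < (M + 1) * k + k ^ 2 / 4)
    (hheavy : ∃ r ≤ ℓ, L ≤ a r + 1) :
    ∃ s t, s + t ≤ ℓ ∧
      ∑ r ∈ range s, a r + ∑ r ∈ range t, a (ℓ - r) ≤ M ∧ L ≤ a s + a (ℓ - t) := by
  classical
  -- the first heavy index
  obtain ⟨r₀, hr₀, hr₀'⟩ := hheavy
  have hex : ∃ r, r ≤ ℓ ∧ L ≤ a r + 1 := ⟨r₀, hr₀, hr₀'⟩
  have hex' : ∃ r, r ≤ ℓ ∧ L ≤ a (ℓ - r) + 1 :=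
    ⟨ℓ - r₀, by omega, by rw [show ℓ - (ℓ - r₀) = r₀ by omega]; exact hr₀'⟩
  set i := Nat.find hex with hi
  set j := Nat.find hex' with hj
  have hi1 := Nat.find_spec hex
  have hj1 := Nat.find_spec hex'
  rw [← hi] at hi1
  rw [← hj] at hj1
  have hij : i + j ≤ ℓ := by
    have := Nat.find_min' hex' (m := ℓ - i) ⟨by omega, by
      rw [show ℓ - (ℓ - i) = i by omega]; exact hi1.2⟩
    rw [← hj] at this
    have := hi1.1
    omega
  by_cases hA : ∑ r ∈ range i, a r ≤ M
  · refine ⟨i, 0, by omega, by simpa using hA, ?_⟩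
    have := ha (ℓ - 0)
    have := hi1.2
    omega
  by_cases hB : ∑ r ∈ range j, a (ℓ - r) ≤ M
  · refine ⟨0, j, by omega, by simpa using hB, ?_⟩
    have := ha 0
    have := hj1.2
    omega
  push Not at hA hB
  obtain ⟨s, hs⟩ := exists_index a i M hA
  obtain ⟨t, ht⟩ := exists_index (fun r => a (ℓ - r)) j M hB
  have hX := sum_steps a i M s hs
  have hY := sum_steps (fun r => a (ℓ - r)) j M t ht
  by_contra hcon
  push Not at hcon
  have hbound : ∀ m ∈ range (M + 1), a (s m) + a (ℓ - t (M - m)) + 1 ≤ L := by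
    intro m hm
    rw [mem_range] at hm
    have h1 := hs m (by omega)
    have h2 := ht (M - m) (by omega)
    have := hcon (s m) (t (M - m)) (by omega) (by
      have := h1.2.1
      have := h2.2.1
      omega)
    omega
  have hsum := sum_le_sum hbound
  rw [sum_add_distrib, sum_add_distrib, sum_const, sum_const, card_range, smul_eq_mul,
    smul_eq_mul] at hsum
  have hrefl : ∑ m ∈ range (M + 1), a (ℓ - t (M - m)) = ∑ m ∈ range (M + 1), a (ℓ - t m) := by
    have := Finset.sum_range_reflect (fun m => a (ℓ - t m)) (M + 1)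
    rw [← this]
    refine sum_congr rfl fun m hm => ?_
    rw [mem_range] at hm
    rw [show M + 1 - 1 - m = M - m by omega]
  rw [hrefl] at hsum
  set X := ∑ m ∈ range (M + 1), a (s m) with hXd
  set Y := ∑ m ∈ range (M + 1), a (ℓ - t m) with hYd
  have hi0 : 0 < i := by
    rcases Nat.eq_zero_or_pos i with h | h
    · rw [h] at hA; simp at hA
    · exact h
  have hj0 : 0 < j := by
    rcases Nat.eq_zero_or_pos j with h | h
    · rw [h] at hB; simp at hB
    · exact h
  have hh := harmonic (i := i) (j := j) (k := k) (by omega)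
  set Q := k ^ 2 / 4 with hQ
  have hL1 : 1 ≤ L := by
    have := hbound 0 (by simp)
    omega
  obtain ⟨L', rfl⟩ := Nat.exists_eq_add_of_le' hL1
  -- everything in ℕ
  have e1 : X + Y ≤ (M + 1) * L' := by
    have : (M + 1) * (L' + 1) = (M + 1) * L' + (M + 1) := by ring
    rw [this] at hsum
    omega
  have e2 : (i + j) * (M + 1) ^ 2 ≤ i * j * (X + Y) := by
    calc (i + j) * (M + 1) ^ 2 = j * (M + 1) ^ 2 + i * (M + 1) ^ 2 := by ring
      _ ≤ j * (i * X) + i * (j * Y) :=
        Nat.add_le_add (Nat.mul_le_mul_left _ hX) (Nat.mul_le_mul_left _ hY)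
      _ = i * j * (X + Y) := by ring
  have e3 : (i + j) * (M + 1) ^ 2 ≤ i * j * ((M + 1) * L') :=
    e2.trans (Nat.mul_le_mul_left _ e1)
  have e4 : (i + j) * (M + 1) ≤ i * j * L' := by
    have : (M + 1) * ((i + j) * (M + 1)) ≤ (M + 1) * (i * j * L') := by
      calc (M + 1) * ((i + j) * (M + 1)) = (i + j) * (M + 1) ^ 2 := by ring
        _ ≤ i * j * ((M + 1) * L') := e3
        _ = (M + 1) * (i * j * L') := by ring
    exact Nat.le_of_mul_le_mul_left this (by omega)
  have e5 : L' * Q < (M + 1) * k := by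
    have : (L' + 1) * Q = L' * Q + Q := by ring
    rw [this] at hL
    omega
  have e6 : (i + j) * (M + 1) * Q ≤ i * j * (L' * Q) := by
    calc (i + j) * (M + 1) * Q ≤ i * j * L' * Q := Nat.mul_le_mul_right _ e4
      _ = i * j * (L' * Q) := by ring
  have e7 : i * j * (L' * Q) < i * j * ((M + 1) * k) :=
    Nat.mul_lt_mul_of_pos_left e5 (by positivity)
  have e8 : (M + 1) * ((i + j) * Q) < (M + 1) * (i * j * k) := by
    calc (M + 1) * ((i + j) * Q) = (i + j) * (M + 1) * Q := by ring
      _ ≤ i * j * (L' * Q) := e6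
      _ < i * j * ((M + 1) * k) := e7
      _ = (M + 1) * (i * j * k) := by ring
  have e9 := Nat.lt_of_mul_lt_mul_left e8
  omega

end Pool.Agent.U54.KR
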