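import Pool.Agent.U54.KR.Defs
import Pool.Agent.U54.KR.Numeric

set_option autoImplicit false

/-!
# Fronts: the walks from a vertex with bounded product of the degrees
-/

namespace Pool.Agent.U54.KR

open Finset

section front

variable {V : Type}

/-- The end points of the walks with `s` steps from `u`, with the sum of the weights of all
vertices but the last one. -/
def front (nb : V → List V) (α : V → ℕ) : ℕ → V → List (V × ℕ)
  | 0, u => [(u, 0)]
  | s + 1, u => (nb u).flatMap fun x => (front nb α s x).map fun p => (p.1, p.2 + α u)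

theorem mem_front (nb : V → List V) (α : V → ℕ) : ∀ (s : ℕ) (u x : V) (a : ℕ),
    (x, a) ∈ front nb α s u ↔ ∃ p : ℕ → V, p 0 = u ∧ p s = x ∧ (∀ i < s, p (i + 1) ∈ nb (p i)) ∧
      ∑ i ∈ range s, α (p i) = a := by
  intro s
  induction s with
  | zero =>
    intro u x a
    simp only [front, List.mem_singleton, Prod.mk.injEq, range_zero, sum_empty, Nat.not_lt_zero,
      false_implies, implies_true, true_and]
    constructor
    · rintro ⟨rfl, rfl⟩
      exact ⟨fun _ => x, rfl, rfl, rfl⟩
    · rintro ⟨p, h1, h2, h3⟩
      exact ⟨h2.symm.trans h1, h3.symm⟩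
  | succ s ih =>
    intro u x a
    simp only [front, List.mem_flatMap, List.mem_map, Prod.mk.injEq, Prod.exists]
    constructor
    · rintro ⟨y, hy, x', a', h, rfl, rfl⟩
      obtain ⟨p, h0, h1, h2, h3⟩ := (ih y x' a').1 h
      refine ⟨fun i => if i = 0 then u else p (i - 1), by simp, by simpa using h1, ?_, ?_⟩
      · intro i hi
        rcases Nat.eq_zero_or_pos i with rfl | hi0
        · simpa [h0] using hy
        · have := h2 (i - 1) (by omega)
          simpa [show i ≠ 0 by omega, show i - 1 + 1 = i by omega] using this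
      · rw [sum_range_succ']
        simp only [Nat.add_eq_zero_iff, one_ne_zero, and_false, if_false, Nat.add_sub_cancel,
          if_true]
        rw [h3]
    · rintro ⟨p, h0, h1, h2, h3⟩
      refine ⟨p 1, by rw [← h0]; exact h2 0 (by omega), x, ∑ i ∈ range s, α (p (i + 1)), ?_, rfl, ?_⟩
      · exact (ih _ _ _).2 ⟨fun i => p (i + 1), rfl, h1, fun i hi => h2 (i + 1) (by omega), rfl⟩
      · rw [← h3, sum_range_succ', h0]

/-- Kraft's inequality. -/
theorem kraft (nb : V → List V) (α : V → ℕ) (h : ∀ x, (nb x).length ≤ 2 ^ α x) :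
    ∀ (s : ℕ) (u : V) (M : ℕ),
      (((front nb α s u).filter fun p => p.2 ≤ M).map fun p => 2 ^ (M - p.2)).sum ≤ 2 ^ M := by
  intro s
  induction s with
  | zero => intro u M; simp [front]
  | succ s ih =>
    intro u M
    have key : ∀ l : List V,
        (((l.flatMap fun x => (front nb α s x).map fun p => (p.1, p.2 + α u)).filter
          fun p => p.2 ≤ M).map fun p => 2 ^ (M - p.2)).sum ≤
          if α u ≤ M then l.length * 2 ^ (M - α u) else 0 := by
      intro l
      induction l with
      | nil => simp
      | cons x l hl =>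
        rw [List.flatMap_cons, List.filter_append, List.map_append, List.sum_append]
        split_ifs at hl ⊢ with hu
        · have h1 := ih x (M - α u)
          have h2 : ((((front nb α s x).map fun p => (p.1, p.2 + α u)).filter
              fun p => p.2 ≤ M).map fun p => 2 ^ (M - p.2)) =
              ((front nb α s x).filter fun p => p.2 ≤ M - α u).map
                fun p => 2 ^ (M - α u - p.2) := by
            rw [List.filter_map, List.map_map]
            have e1 : ((fun p : V × ℕ => decide (p.2 ≤ M)) ∘ fun p : V × ℕ => (p.1, p.2 + α u)) =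
                fun p : V × ℕ => decide (p.2 ≤ M - α u) := by
              funext p
              simp only [Function.comp_apply, decide_eq_decide]
              omega
            rw [e1]
            refine List.map_congr_left fun p _ => ?_
            simp only [Function.comp_apply]
            congr 1
            omega
          rw [h2, List.length_cons, Nat.add_mul, Nat.one_mul]
          omega
        · have h2 : (((front nb α s x).map fun p => (p.1, p.2 + α u)).filter
              fun p => p.2 ≤ M) = [] := by
            rw [List.filter_eq_nil_iff]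
            intro p hp
            obtain ⟨q, _, rfl⟩ := List.mem_map.1 hp
            simp only [decide_eq_true_eq]
            omega
          rw [h2]
          simpa using hl
    refine (key (nb u)).trans ?_
    split_ifs with hu
    · calc (nb u).length * 2 ^ (M - α u) ≤ 2 ^ α u * 2 ^ (M - α u) :=
          Nat.mul_le_mul_right _ (h u)
        _ = 2 ^ M := by rw [← pow_add]; congr 1; omega
    · exact Nat.zero_le _

/-- All end points of walks with at most `k` steps and cost at most `M`, with their number of
steps and their cost. -/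
def fronts (nb : V → List V) (α : V → ℕ) (k M : ℕ) (u : V) : List (ℕ × V × ℕ) :=
  (List.range (k + 1)).flatMap fun s =>
    ((front nb α s u).filter fun p => p.2 ≤ M).map fun p => (s, p.1, p.2)

theorem mem_fronts (nb : V → List V) (α : V → ℕ) (k M : ℕ) (u : V) (s : ℕ) (x : V) (a : ℕ) :
    (s, x, a) ∈ fronts nb α k M u ↔ s ≤ k ∧ a ≤ M ∧ (x, a) ∈ front nb α s u := by
  simp only [fronts, List.mem_flatMap, List.mem_range, List.mem_map, List.mem_filter,
    decide_eq_true_eq, Prod.mk.injEq, Prod.exists]
  constructor
  · rintro ⟨s', h1, x', a', ⟨h2, h3⟩, rfl, rfl, rfl⟩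
    exact ⟨by omega, h3, h2⟩
  · rintro ⟨h1, h2, h3⟩
    exact ⟨s, by omega, x, a, ⟨h3, h2⟩, rfl, rfl, rfl⟩

theorem kraft_fronts (nb : V → List V) (α : V → ℕ) (h : ∀ x, (nb x).length ≤ 2 ^ α x)
    (k M : ℕ) (u : V) :
    ((fronts nb α k M u).map fun f => 2 ^ (M - f.2.2)).sum ≤ (k + 1) * 2 ^ M := by
  have key : ∀ l : List ℕ,
      ((l.flatMap fun s => ((front nb α s u).filter fun p => p.2 ≤ M).map
        fun p => (s, p.1, p.2)).map fun f => 2 ^ (M - f.2.2)).sum ≤ l.length * 2 ^ M := by
    intro l
    induction l with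
    | nil => simp
    | cons s l hl =>
      rw [List.flatMap_cons, List.map_append, List.sum_append, List.map_map, List.length_cons,
        Nat.add_mul, Nat.one_mul]
      have h1 := kraft nb α h s u M
      have h2 : ((fun f : ℕ × V × ℕ => 2 ^ (M - f.2.2)) ∘ fun p : V × ℕ => (s, p.1, p.2)) =
          fun p : V × ℕ => 2 ^ (M - p.2) := rfl
      rw [h2]
      omega
  have := key (List.range (k + 1))
  rwa [List.length_range] at this

theorem length_fronts (nb : V → List V) (α : V → ℕ) (h : ∀ x, (nb x).length ≤ 2 ^ α x)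
    (k M : ℕ) (u : V) : (fronts nb α k M u).length ≤ (k + 1) * 2 ^ M := by
  refine le_trans ?_ (kraft_fronts nb α h k M u)
  have : ∀ l : List (ℕ × V × ℕ), l.length ≤ (l.map fun f => 2 ^ (M - f.2.2)).sum := by
    intro l
    induction l with
    | nil => simp
    | cons f l hl =>
      rw [List.length_cons, List.map_cons, List.sum_cons]
      have : 1 ≤ 2 ^ (M - f.2.2) := Nat.one_le_two_pow
      omega
  exact this _

end front

/-! ### Degrees -/

section deg

variable {n : ℕ} (E : Finset (Fin n × Fin n))

/-- one plus the total degree -/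
def deg (x : Fin n) : ℕ := 1 + (E.filter fun e => e.1 = x).card + (E.filter fun e => e.2 = x).card

/-- the degree exponent: `2 ^ (α - 1) ≤ deg < 2 ^ α` -/
def al (x : Fin n) : ℕ := Nat.log 2 (deg E x) + 1

/-- out-neighbours -/
noncomputable def outL (x : Fin n) : List (Fin n) :=
  ((E.filter fun e => e.1 = x).toList).map Prod.snd

/-- in-neighbours -/
noncomputable def inL (x : Fin n) : List (Fin n) :=
  ((E.filter fun e => e.2 = x).toList).map Prod.fst

theorem mem_outL (x y : Fin n) : y ∈ outL E x ↔ (x, y) ∈ E := by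
  simp only [outL, List.mem_map, Finset.mem_toList, Finset.mem_filter, Prod.exists]
  constructor
  · rintro ⟨a, b, ⟨h, rfl⟩, rfl⟩
    exact h
  · intro h
    exact ⟨x, y, ⟨h, rfl⟩, rfl⟩

theorem mem_inL (x y : Fin n) : y ∈ inL E x ↔ (y, x) ∈ E := by
  simp only [inL, List.mem_map, Finset.mem_toList, Finset.mem_filter, Prod.exists]
  constructor
  · rintro ⟨a, b, ⟨h, rfl⟩, rfl⟩
    exact h
  · intro h
    exact ⟨y, x, ⟨h, rfl⟩, rfl⟩

theorem deg_pos (x : Fin n) : 1 ≤ deg E x := by unfold deg; omega

theorem deg_lt (x : Fin n) : deg E x < 2 ^ al E x := by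
  unfold al
  exact Nat.lt_pow_succ_log_self (by norm_num) _

theorem pow_al_le (x : Fin n) : 2 ^ al E x ≤ 2 * deg E x := by
  unfold al
  rw [pow_succ, Nat.mul_comm]
  exact Nat.mul_le_mul_left _ (Nat.pow_log_le_self 2 (by have := deg_pos E x; omega))

theorem one_le_al (x : Fin n) : 1 ≤ al E x := by unfold al; omega

theorem length_outL (x : Fin n) : (outL E x).length ≤ 2 ^ al E x := by
  have h := deg_lt E x
  unfold outL
  rw [List.length_map, Finset.length_toList]
  unfold deg at h
  omega

theorem length_inL (x : Fin n) : (inL E x).length ≤ 2 ^ al E x := by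
  have h := deg_lt E x
  unfold inL
  rw [List.length_map, Finset.length_toList]
  unfold deg at h
  omega

theorem sum_deg : ∑ x, deg E x = n + 2 * E.card := by
  unfold deg
  rw [sum_add_distrib, sum_add_distrib]
  have h1 : ∑ x : Fin n, (E.filter fun e => e.1 = x).card = E.card :=
    (Finset.card_eq_sum_card_fiberwise (f := Prod.fst) (t := univ) fun _ _ => mem_univ _).symm
  have h2 : ∑ x : Fin n, (E.filter fun e => e.2 = x).card = E.card :=
    (Finset.card_eq_sum_card_fiberwise (f := Prod.snd) (t := univ) fun _ _ => mem_univ _).symm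
  rw [h1, h2]
  simp
  ring

/-! ### The table -/

variable (L : ℕ)

/-- the position of a vertex in the order of decreasing degree exponent -/
def rank (y : Fin n) : ℕ :=
  (univ.filter fun y' => al E y < al E y' ∨ (al E y = al E y' ∧ y' < y)).card

/-- the length of a row of the table -/
def rowLen (x : Fin n) : ℕ := (univ.filter fun y => L ≤ al E x + al E y).card

theorem rank_lt {x y : Fin n} (h : L ≤ al E x + al E y) : rank E y < rowLen E L x := by
  unfold rank rowLen
  refine card_lt_card (Finset.ssubset_iff_subset_ne.2 ⟨?_, ?_⟩)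
  · intro z hz
    rw [mem_filter] at hz ⊢
    refine ⟨mem_univ _, ?_⟩
    rcases hz.2 with h1 | ⟨h1, _⟩ <;> omega
  · intro hcon
    have : y ∈ univ.filter fun y => L ≤ al E x + al E y := mem_filter.2 ⟨mem_univ _, h⟩
    rw [← hcon, mem_filter] at this
    rcases this.2 with h1 | ⟨_, h1⟩
    · exact lt_irrefl _ h1
    · exact lt_irrefl _ h1

theorem rank_lt_n (y : Fin n) : rank E y < n := by
  unfold rank
  have : (univ.filter fun y' => al E y < al E y' ∨ (al E y = al E y' ∧ y' < y)) ⊂ univ := by
    refine Finset.ssubset_iff_subset_ne.2 ⟨subset_univ _, ?_⟩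
    intro hcon
    have h := mem_univ y
    rw [← hcon, mem_filter] at h
    rcases h.2 with h1 | ⟨_, h1⟩
    · exact lt_irrefl _ h1
    · exact lt_irrefl _ h1
  have := card_lt_card this
  simpa using this

theorem rank_strict {y z : Fin n} (h : al E y < al E z ∨ (al E y = al E z ∧ z < y)) :
    rank E z < rank E y := by
  unfold rank
  refine card_lt_card (Finset.ssubset_iff_subset_ne.2 ⟨?_, ?_⟩)
  · intro x hx
    rw [mem_filter] at hx ⊢
    refine ⟨mem_univ _, ?_⟩
    rcases h with h | ⟨h, h'⟩ <;> rcases hx.2 with h1 | ⟨h1, h1'⟩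
    · left; omega
    · left; omega
    · left; omega
    · right; exact ⟨h.trans h1, h1'.trans h'⟩
  · intro hcon
    have : z ∈ univ.filter fun y' => al E y < al E y' ∨ (al E y = al E y' ∧ y' < y) :=
      mem_filter.2 ⟨mem_univ _, h⟩
    rw [← hcon, mem_filter] at this
    rcases this.2 with h1 | ⟨_, h1⟩
    · exact lt_irrefl _ h1
    · exact lt_irrefl _ h1

theorem rank_inj {y z : Fin n} (h : rank E y = rank E z) : y = z := by
  by_contra hne
  rcases lt_trichotomy (al E y) (al E z) with h1 | h1 | h1
  · have := rank_strict E (Or.inl h1); omega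
  · rcases lt_or_gt_of_ne hne with h2 | h2
    · have := rank_strict E (y := z) (z := y) (Or.inr ⟨h1.symm, h2⟩); omega
    · have := rank_strict E (y := y) (z := z) (Or.inr ⟨h1, h2⟩); omega
  · have := rank_strict E (y := z) (z := y) (Or.inl h1); omega

theorem sum_rowLen : 2 ^ L * ∑ x, rowLen E L x ≤ 4 * (n + 2 * E.card) ^ 2 := by
  classical
  have h1 : ∑ x, rowLen E L x =
      ((univ : Finset (Fin n × Fin n)).filter fun p => L ≤ al E p.1 + al E p.2).card := by
    rw [Finset.card_eq_sum_card_fiberwise (f := Prod.fst) (t := univ) fun _ _ => mem_univ _]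
    refine sum_congr rfl fun x _ => ?_
    unfold rowLen
    refine Finset.card_bij (fun y _ => (x, y)) ?_ ?_ ?_
    · intro y hy
      rw [mem_filter] at hy
      rw [mem_filter, mem_filter]
      exact ⟨⟨mem_univ _, hy.2⟩, rfl⟩
    · intro y _ z _ h
      exact (Prod.mk.inj h).2
    · rintro ⟨x', y⟩ hp
      rw [mem_filter, mem_filter] at hp
      obtain ⟨⟨_, hp1⟩, hp2⟩ := hp
      simp only at hp2 hp1
      subst hp2
      exact ⟨y, mem_filter.2 ⟨mem_univ _, hp1⟩, rfl⟩
  rw [h1, ← sum_deg E]
  calc 2 ^ L * ((univ : Finset (Fin n × Fin n)).filter fun p => L ≤ al E p.1 + al E p.2).card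
      = ∑ p ∈ (univ : Finset (Fin n × Fin n)).filter fun p => L ≤ al E p.1 + al E p.2, 2 ^ L := by
        rw [sum_const, smul_eq_mul, Nat.mul_comm]
    _ ≤ ∑ p ∈ (univ : Finset (Fin n × Fin n)).filter fun p => L ≤ al E p.1 + al E p.2,
        4 * (deg E p.1 * deg E p.2) := by
        refine sum_le_sum fun p hp => ?_
        rw [mem_filter] at hp
        calc 2 ^ L ≤ 2 ^ (al E p.1 + al E p.2) := Nat.pow_le_pow_right (by norm_num) hp.2
          _ = 2 ^ al E p.1 * 2 ^ al E p.2 := pow_add _ _ _
          _ ≤ (2 * deg E p.1) * (2 * deg E p.2) :=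
            Nat.mul_le_mul (pow_al_le E _) (pow_al_le E _)
          _ = 4 * (deg E p.1 * deg E p.2) := by ring
    _ ≤ ∑ p : Fin n × Fin n, 4 * (deg E p.1 * deg E p.2) :=
        sum_le_sum_of_subset (filter_subset _ _)
    _ = 4 * (∑ x, deg E x) ^ 2 := by
        rw [← mul_sum, sq, Finset.sum_mul_sum, Fintype.sum_prod_type]

end deg

end Pool.Agent.U54.KR
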