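import Pool.Agent.U54.KR.Mem

set_option autoImplicit false

/-!
# The tradeoff
-/

namespace Pool.Agent.U54.KR

open Pool.Agent.H588R2 Filter

/-- The exponent `1 / ⌊k / 2⌋ + 1 / ⌈k / 2⌉ = k / ⌊k ^ 2 / 4⌋`: it is `4 / k` for even `k` and
`4 k / (k ^ 2 - 1)` for odd `k`. -/
noncomputable def expo (k : ℕ) : ℝ := 1 / ((k / 2 : ℕ) : ℝ) + 1 / (((k + 1) / 2 : ℕ) : ℝ)

theorem half_mul (k : ℕ) : (k / 2) * ((k + 1) / 2) = k ^ 2 / 4 := by
  rcases Nat.even_or_odd' k with ⟨m, rfl | rfl⟩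
  · have h1 : 2 * m / 2 = m := by omega
    have h2 : (2 * m + 1) / 2 = m := by omega
    have h3 : (2 * m) ^ 2 = 4 * (m * m) := by ring
    rw [h1, h2, h3, Nat.mul_div_cancel_left _ (by norm_num)]
  · have h1 : (2 * m + 1) / 2 = m := by omega
    have h2 : (2 * m + 1 + 1) / 2 = m + 1 := by omega
    have h3 : (2 * m + 1) ^ 2 = 1 + 4 * (m * (m + 1)) := by ring
    rw [h1, h2, h3]
    omega

theorem expo_eq {k : ℕ} (hk : 2 ≤ k) : expo k = (k : ℝ) / ((k ^ 2 / 4 : ℕ) : ℝ) := by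
  have h1 : 0 < k / 2 := by omega
  have h2 : 0 < (k + 1) / 2 := by omega
  have h1' : (0 : ℝ) < ((k / 2 : ℕ) : ℝ) := by exact_mod_cast h1
  have h2' : (0 : ℝ) < (((k + 1) / 2 : ℕ) : ℝ) := by exact_mod_cast h2
  unfold expo
  rw [← half_mul, Nat.cast_mul]
  have h3 : (k : ℝ) = ((k / 2 : ℕ) : ℝ) + (((k + 1) / 2 : ℕ) : ℝ) := by
    rw [← Nat.cast_add]
    congr 1
    omega
  calc 1 / ((k / 2 : ℕ) : ℝ) + 1 / (((k + 1) / 2 : ℕ) : ℝ)
      = (((k / 2 : ℕ) : ℝ) + (((k + 1) / 2 : ℕ) : ℝ)) /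
          (((k / 2 : ℕ) : ℝ) * (((k + 1) / 2 : ℕ) : ℝ)) := by
        field_simp
        ring
    _ = (k : ℝ) / (((k / 2 : ℕ) : ℝ) * (((k + 1) / 2 : ℕ) : ℝ)) := by rw [← h3]

theorem quarter_pos {k : ℕ} (hk : 2 ≤ k) : 1 ≤ k ^ 2 / 4 := by
  rw [Nat.le_div_iff_mul_le (by norm_num)]
  nlinarith

theorem two_sq_le {k : ℕ} (hk : 2 ≤ k) : 2 * k ^ 2 ≤ 9 * (k ^ 2 / 4) := by
  rcases Nat.even_or_odd' k with ⟨m, rfl | rfl⟩
  · have h3 : (2 * m) ^ 2 = 4 * (m * m) := by ring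
    rw [h3, Nat.mul_div_cancel_left _ (by norm_num)]
    nlinarith
  · have h3 : (2 * m + 1) ^ 2 = 1 + 4 * (m * (m + 1)) := by ring
    have h4 : (2 * m + 1) ^ 2 / 4 = m * (m + 1) := by
      rw [h3]
      omega
    rw [h4, h3]
    have : 1 ≤ m := by omega
    nlinarith

theorem expo_pos {k : ℕ} (hk : 2 ≤ k) : 0 < expo k := by
  rw [expo_eq hk]
  have := quarter_pos hk
  have h : (0 : ℝ) < ((k ^ 2 / 4 : ℕ) : ℝ) := by exact_mod_cast this
  have h' : (0 : ℝ) < k := by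
    have : 0 < k := by omega
    exact_mod_cast this
  positivity

theorem expo_le {k : ℕ} (hk : 2 ≤ k) : expo k ≤ 2 := by
  rw [expo_eq hk]
  have h0 := quarter_pos hk
  have h : (0 : ℝ) < ((k ^ 2 / 4 : ℕ) : ℝ) := by exact_mod_cast h0
  rw [div_le_iff₀ h]
  have : k ≤ 2 * (k ^ 2 / 4) := by
    rcases Nat.even_or_odd' k with ⟨m, rfl | rfl⟩
    · have h3 : (2 * m) ^ 2 = 4 * (m * m) := by ring
      rw [h3, Nat.mul_div_cancel_left _ (by norm_num)]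
      nlinarith
    · have h3 : (2 * m + 1) ^ 2 = 1 + 4 * (m * (m + 1)) := by ring
      have h4 : (2 * m + 1) ^ 2 / 4 = m * (m + 1) := by
        rw [h3]
        omega
      rw [h4]
      have : 1 ≤ m := by omega
      nlinarith
  exact_mod_cast this

/-- The new exponent is larger than the conjectured one. -/
theorem lt_expo {k : ℕ} (hk : 3 ≤ k) : 2 / ((k : ℝ) - 1) < expo k := by
  rw [expo_eq (by omega)]
  have h0 := quarter_pos (k := k) (by omega)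
  have h : (0 : ℝ) < ((k ^ 2 / 4 : ℕ) : ℝ) := by exact_mod_cast h0
  have hk' : (3 : ℝ) ≤ k := by exact_mod_cast hk
  rw [div_lt_div_iff₀ (by linarith) h]
  have h1 : (((k ^ 2 / 4 : ℕ) : ℝ)) ≤ (k : ℝ) ^ 2 / 4 := by
    have := Nat.cast_div_le (α := ℝ) (m := k ^ 2) (n := 4)
    push_cast at this ⊢
    exact this
  nlinarith

/-- The tradeoff, for a single number of vertices. -/
theorem tradeoff {k : ℕ} (hk : 2 ≤ k) (C : ℝ) (hC : 0 < C) : ∃ K : ℝ, 1 ≤ K ∧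
    ∀ (n : ℕ) (T : ℝ), 2 ≤ n → 1 ≤ T → T ^ 11 ≤ n → ∃ w S : ℕ,
      Real.logb 2 n ≤ w ∧ (w : ℝ) ≤ K * Real.log n ∧
      (S : ℝ) ≤ K * (n : ℝ) ^ 2 / T ^ expo k ∧ Oracle k C prog n w S (K * T) := by
  set K1 : ℝ := 8 + 4 * (k + 1) + 2 + 2 * (k + 1) + 4 * (1 + 2 * C) ^ 2 +
    (k + 1) ^ 2 * 2 ^ (9 + 2 * k) + 1 with hK1
  set K2 : ℝ := 8 * K1 + 8 * k + 32 with hK2
  set K3 : ℝ := (Real.log (2 * K2) / Real.log 2 + 2) / Real.log 2 with hK3
  set K4 : ℝ := 90 * (k + 1) ^ 2 with hK4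
  have hk0 : (0 : ℝ) ≤ k := Nat.cast_nonneg _
  have hK1pos : 1 ≤ K1 := by
    have : (0 : ℝ) ≤ 4 * (1 + 2 * C) ^ 2 := by positivity
    have : (0 : ℝ) ≤ (k + 1) ^ 2 * 2 ^ (9 + 2 * k) := by positivity
    rw [hK1]
    linarith
  have hK2pos : 1 ≤ K2 := by rw [hK2]; linarith
  have hlog2 : 0 < Real.log 2 := Real.log_pos (by norm_num)
  have hlogK2 : 0 ≤ Real.log (2 * K2) := Real.log_nonneg (by linarith)
  have hK3pos : 0 ≤ K3 := by rw [hK3]; positivity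
  have hK4pos : 0 ≤ K4 := by rw [hK4]; positivity
  refine ⟨K1 + K3 + K4, by linarith, ?_⟩
  intro n T hn hT hTn
  have hn2 : (2 : ℝ) ≤ n := by exact_mod_cast hn
  have hn0 : (0 : ℝ) < n := by linarith
  have hT0 : (0 : ℝ) < T := by linarith
  -- the number of levels
  set M := Nat.log 2 ⌊T⌋₊ with hM
  have hfl : ⌊T⌋₊ ≠ 0 := by
    have := Nat.floor_pos.2 hT
    omega
  have hM1 : (2 : ℝ) ^ M ≤ T := by
    have h1 : 2 ^ M ≤ ⌊T⌋₊ := Nat.pow_log_le_self 2 hfl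
    have h2 : ((2 ^ M : ℕ) : ℝ) ≤ (⌊T⌋₊ : ℝ) := by exact_mod_cast h1
    have h3 := Nat.floor_le hT0.le
    push_cast at h2
    linarith
  have hM2 : T < (2 : ℝ) ^ (M + 1) := by
    have h1 : ⌊T⌋₊ < 2 ^ (M + 1) := Nat.lt_pow_succ_log_self (by norm_num) _
    have h2 : ⌊T⌋₊ + 1 ≤ 2 ^ (M + 1) := h1
    have h3 : ((⌊T⌋₊ + 1 : ℕ) : ℝ) ≤ ((2 ^ (M + 1) : ℕ) : ℝ) := by exact_mod_cast h2
    have h4 := Nat.lt_floor_add_one T
    push_cast at h3
    linarith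
  set Q := k ^ 2 / 4 with hQ
  have hQ1 : 1 ≤ Q := quarter_pos hk
  set L := ((M + 1) * k + (Q - 1)) / Q with hLdef
  have hL1 : L * Q < (M + 1) * k + Q := by
    have := Nat.div_mul_le_self ((M + 1) * k + (Q - 1)) Q
    rw [← hLdef] at this
    omega
  have hL2 : (M + 1) * k ≤ L * Q := by
    have h := Nat.lt_div_mul_add (a := (M + 1) * k + (Q - 1)) (b := Q) (by omega)
    rw [← hLdef] at h
    omega
  set N := n + 2 * ⌊C * n⌋₊ with hN
  have hNle : (N : ℝ) ≤ (1 + 2 * C) * n := by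
    rw [hN]
    push_cast
    have := Nat.floor_le (show (0 : ℝ) ≤ C * n by positivity)
    linarith
  set S := space n k M L N with hS
  set e := expo k with he
  have he0 : 0 < e := expo_pos hk
  have he2 : e ≤ 2 := expo_le hk
  have hTe : 0 < T ^ e := Real.rpow_pos_of_pos hT0 _
  have hTe2 : T ^ e ≤ T ^ (2 : ℕ) := by
    rw [← Real.rpow_natCast]
    exact Real.rpow_le_rpow_of_exponent_le hT (by exact_mod_cast he2)
  set Z := (n : ℝ) ^ 2 / T ^ e with hZ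
  have hpow : ∀ j : ℕ, j ≤ 9 → (n : ℝ) * T ^ j ≤ Z := by
    intro j hj
    rw [hZ, le_div_iff₀ hTe]
    calc (n : ℝ) * T ^ j * T ^ e ≤ n * T ^ 9 * T ^ (2 : ℕ) := by
          gcongr
      _ = n * T ^ 11 := by ring
      _ ≤ n * n := by gcongr
      _ = (n : ℝ) ^ 2 := by ring
  have hZ0 : 0 < Z := by positivity
  -- the table
  have h2L : T ^ e ≤ (2 : ℝ) ^ L := by
    have h1 : T ^ k ≤ ((2 : ℝ) ^ L) ^ Q := by
      calc T ^ k ≤ ((2 : ℝ) ^ (M + 1)) ^ k := by gcongr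
        _ = (2 : ℝ) ^ ((M + 1) * k) := (pow_mul _ _ _).symm
        _ ≤ (2 : ℝ) ^ (L * Q) := pow_le_pow_right₀ (by norm_num) hL2
        _ = ((2 : ℝ) ^ L) ^ Q := pow_mul _ _ _
    have hQ0 : (Q : ℝ) ≠ 0 := by
      have : Q ≠ 0 := by omega
      exact_mod_cast this
    have h2 : (T ^ k) ^ ((1 : ℝ) / Q) ≤ (((2 : ℝ) ^ L) ^ Q) ^ ((1 : ℝ) / Q) := by
      gcongr
    have h3 : (((2 : ℝ) ^ L) ^ Q) ^ ((1 : ℝ) / Q) = (2 : ℝ) ^ L := by
      rw [← Real.rpow_natCast ((2 : ℝ) ^ L) Q, ← Real.rpow_mul (by positivity)]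
      rw [mul_one_div_cancel hQ0, Real.rpow_one]
    have h4 : (T ^ k) ^ ((1 : ℝ) / Q) = T ^ e := by
      rw [← Real.rpow_natCast T k, ← Real.rpow_mul hT0.le, he, expo_eq hk]
      congr 1
      rw [mul_one_div]
    rwa [h3, h4] at h2
  have hM3 : (M : ℝ) + 1 ≤ (2 : ℝ) ^ M := by
    have : M + 1 ≤ 2 ^ M := Nat.lt_two_pow_self
    exact_mod_cast this
  -- the direct table
  have h2kL : (2 : ℝ) ^ (2 * (k * L)) ≤ 2 ^ (9 + 2 * k) * T ^ 9 := by
    have h1 : 2 * (k * L) ≤ 9 * (M + 1) + 2 * k := by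
      have h2 := two_sq_le hk
      have h3 : 2 * (k * L) * Q ≤ (9 * (M + 1) + 2 * k) * Q := by
        calc 2 * (k * L) * Q = 2 * k * (L * Q) := by ring
          _ ≤ 2 * k * ((M + 1) * k + Q) := Nat.mul_le_mul_left _ hL1.le
          _ = (M + 1) * (2 * k ^ 2) + 2 * k * Q := by ring
          _ ≤ (M + 1) * (9 * Q) + 2 * k * Q :=
              Nat.add_le_add_right (Nat.mul_le_mul_left _ h2) _
          _ = (9 * (M + 1) + 2 * k) * Q := by ring
      exact Nat.le_of_mul_le_mul_right h3 (by omega)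
    calc (2 : ℝ) ^ (2 * (k * L)) ≤ 2 ^ (9 * (M + 1) + 2 * k) :=
          pow_le_pow_right₀ (by norm_num) h1
      _ = 2 ^ (9 + 2 * k) * ((2 : ℝ) ^ M) ^ 9 := by
          rw [← pow_mul, ← pow_add]
          congr 1
          ring
      _ ≤ 2 ^ (9 + 2 * k) * T ^ 9 := by gcongr
  have hspace : (S : ℝ) ≤ K1 * Z := by
    have hdiv : ((4 * N ^ 2 / 2 ^ L : ℕ) : ℝ) ≤ 4 * (1 + 2 * C) ^ 2 * Z := by
      have h1 := Nat.cast_div_le (α := ℝ) (m := 4 * N ^ 2) (n := 2 ^ L)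
      refine h1.trans ?_
      push_cast
      calc 4 * (N : ℝ) ^ 2 / 2 ^ L ≤ 4 * ((1 + 2 * C) * n) ^ 2 / T ^ e := by gcongr
        _ = 4 * (1 + 2 * C) ^ 2 * Z := by rw [hZ]; ring
    have e0 := hpow 0 (by norm_num)
    have e1 := hpow 1 (by norm_num)
    have e2 := hpow 2 (by norm_num)
    have e9 := hpow 9 (by norm_num)
    simp only [pow_zero, mul_one] at e0
    simp only [pow_one] at e1
    rw [hS]
    unfold space
    push_cast
    have t2 : (n : ℝ) * (4 * ((k + 1) * 2 ^ M)) ≤ 4 * (k + 1) * Z := by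
      calc (n : ℝ) * (4 * ((k + 1) * 2 ^ M)) = 4 * (k + 1) * (n * 2 ^ M) := by ring
        _ ≤ 4 * (k + 1) * (n * T) := by gcongr
        _ ≤ 4 * (k + 1) * Z := by gcongr
    have t3 : (n : ℝ) * (2 * (M + 1)) ≤ 2 * Z := by
      calc (n : ℝ) * (2 * (M + 1)) ≤ n * (2 * 2 ^ M) := by gcongr
        _ ≤ n * (2 * T) := by gcongr
        _ = 2 * (n * T) := by ring
        _ ≤ 2 * Z := by gcongr
    have t4 : (n : ℝ) * ((M + 1) * (2 * ((k + 1) * 2 ^ M))) ≤ 2 * (k + 1) * Z := by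
      calc (n : ℝ) * ((M + 1) * (2 * ((k + 1) * 2 ^ M)))
          ≤ n * (2 ^ M * (2 * ((k + 1) * 2 ^ M))) := by gcongr
        _ ≤ n * (T * (2 * ((k + 1) * T))) := by gcongr
        _ = 2 * (k + 1) * (n * T ^ 2) := by ring
        _ ≤ 2 * (k + 1) * Z := by gcongr
    have t6 : (n : ℝ) * ((k + 1) * 2 ^ (k * L)) ^ 2 ≤ (k + 1) ^ 2 * 2 ^ (9 + 2 * k) * Z := by
      calc (n : ℝ) * ((k + 1) * 2 ^ (k * L)) ^ 2 = (k + 1) ^ 2 * (n * 2 ^ (2 * (k * L))) := by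
            rw [mul_pow, ← pow_mul, Nat.mul_comm (k * L) 2]
            ring
        _ ≤ (k + 1) ^ 2 * (n * (2 ^ (9 + 2 * k) * T ^ 9)) := by gcongr
        _ = (k + 1) ^ 2 * 2 ^ (9 + 2 * k) * (n * T ^ 9) := by ring
        _ ≤ (k + 1) ^ 2 * 2 ^ (9 + 2 * k) * Z := by gcongr
    have hK1Z : K1 * Z = 8 * Z + 4 * (k + 1) * Z + 2 * Z + 2 * (k + 1) * Z +
        4 * (1 + 2 * C) ^ 2 * Z + (k + 1) ^ 2 * 2 ^ (9 + 2 * k) * Z + Z := by
      rw [hK1]
      ring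
    rw [hK1Z]
    linarith
  have hZn : Z ≤ (n : ℝ) ^ 2 := by
    rw [hZ]
    exact div_le_self (by positivity) (Real.one_le_rpow hT he0.le)
  -- the word length
  set X := 8 * (S + k + 2) + 16 with hX
  set w := Nat.log 2 X + 1 with hw
  have hX1 : (X : ℝ) ≤ K2 * (n : ℝ) ^ 2 := by
    have h1 : (1 : ℝ) ≤ (n : ℝ) ^ 2 := by nlinarith
    rw [hX]
    push_cast
    have h2 : (S : ℝ) ≤ K1 * (n : ℝ) ^ 2 :=
      hspace.trans (mul_le_mul_of_nonneg_left hZn (by linarith))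
    have h3 : (8 * k + 32 : ℝ) ≤ (8 * k + 32) * (n : ℝ) ^ 2 :=
      le_mul_of_one_le_right (by positivity) h1
    have h4 : K2 * (n : ℝ) ^ 2 = 8 * (K1 * (n : ℝ) ^ 2) + (8 * k + 32) * (n : ℝ) ^ 2 := by
      rw [hK2]
      ring
    rw [h4]
    linarith
  have hXw : X < 2 ^ w := Nat.lt_pow_succ_log_self (by norm_num) _
  have hwX : (2 : ℝ) ^ w ≤ 2 * (K2 * (n : ℝ) ^ 2) := by
    have h1 : 2 ^ Nat.log 2 X ≤ X := Nat.pow_log_le_self 2 (by omega)
    have h2 : (2 : ℝ) ^ Nat.log 2 X ≤ X := by exact_mod_cast h1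
    rw [hw, pow_succ]
    linarith
  have hlogn : Real.log 2 ≤ Real.log n := Real.log_le_log (by norm_num) hn2
  have hlogn0 : 0 < Real.log n := by linarith
  have hwlog : (w : ℝ) ≤ K3 * Real.log n := by
    have h1 : Real.log ((2 : ℝ) ^ w) ≤ Real.log (2 * (K2 * (n : ℝ) ^ 2)) :=
      Real.log_le_log (by positivity) hwX
    rw [Real.log_pow, show 2 * (K2 * (n : ℝ) ^ 2) = 2 * K2 * (n : ℝ) ^ 2 by ring,
      Real.log_mul (by positivity) (by positivity), Real.log_pow] at h1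
    push_cast at h1
    have h2 : Real.log (2 * K2) ≤ Real.log (2 * K2) / Real.log 2 * Real.log n := by
      rw [div_mul_eq_mul_div, le_div_iff₀ hlog2]
      exact mul_le_mul_of_nonneg_left hlogn hlogK2
    rw [hK3, div_mul_eq_mul_div, le_div_iff₀ hlog2]
    linarith
  have hnX : n ≤ X := by
    have : 8 * n ≤ S := by
      rw [hS]
      unfold space
      exact Nat.le_add_right _ _
    omega
  have hlogw : Real.logb 2 n ≤ w := by
    rw [Real.logb_le_iff_le_rpow (by norm_num) hn0, Real.rpow_natCast]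
    have : n ≤ 2 ^ w := hnX.trans hXw.le
    exact_mod_cast this
  refine ⟨w, S, hlogw, ?_, ?_, ?_⟩
  · have : K3 * Real.log n ≤ (K1 + K3 + K4) * Real.log n :=
      mul_le_mul_of_nonneg_right (by linarith) hlogn0.le
    linarith
  · have h1 : (K1 + K3 + K4) * (n : ℝ) ^ 2 / T ^ e = (K1 + K3 + K4) * Z := by rw [hZ]; ring
    rw [h1]
    refine hspace.trans (mul_le_mul_of_nonneg_right (by linarith) hZ0.le)
  · intro E hE
    have hEN : n + 2 * E.card ≤ N := by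
      have : E.card ≤ ⌊C * n⌋₊ := Nat.le_floor hE
      omega
    obtain ⟨mem, h1, h2, h3⟩ := exists_memory E k M L hEN hL1
    refine ⟨mem, fun a => ?_, h2, fun u v => ?_⟩
    · have := h1 a
      omega
    · refine h3 w (by omega) u v _ ?_
      calc (90 * ((k + 1) ^ 2 * 2 ^ M) : ℝ) = K4 * 2 ^ M := by rw [hK4]; ring
        _ ≤ K4 * T := by gcongr
        _ ≤ (K1 + K3 + K4) * T := mul_le_mul_of_nonneg_right (by linarith) hT0.le

/-- The negated form of the question, for every `k ≥ 3`. -/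
theorem negated {k : ℕ} (hk : 3 ≤ k) (C : ℝ) (hC : 0 < C) (δ : ℝ) (hδ : 0 < δ) :
    ∃ (K : ℝ) (w S : ℕ → ℕ) (T : ℕ → ℝ),
      (∀ᶠ n : ℕ in atTop, Real.logb 2 n ≤ w n ∧ (w n : ℝ) ≤ K * Real.log n ∧
        T n ≤ (n : ℝ) ^ δ ∧ Oracle k C prog n (w n) (S n) (T n)) ∧
      ∀ c : ℝ, ∀ᶠ n : ℕ in atTop,
        (S n : ℝ) * T n ^ (2 / ((k : ℝ) - 1)) < (n : ℝ) ^ 2 / Real.log n ^ c := by
  obtain ⟨K, hK1, hK⟩ := tradeoff (k := k) (by omega) C hC
  have hgap := lt_expo hk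
  set e := expo k with he
  set β := 2 / ((k : ℝ) - 1) with hβ
  have hk' : (3 : ℝ) ≤ k := by exact_mod_cast hk
  have hβ0 : 0 < β := by rw [hβ]; exact div_pos (by norm_num) (by linarith)
  set γ := min δ (1 / 11) / 2 with hγ
  have hγ0 : 0 < γ := by
    rw [hγ]
    have : 0 < min δ (1 / 11) := lt_min hδ (by norm_num)
    linarith
  have hγδ : γ < δ := by
    have := min_le_left δ (1 / 11)
    rw [hγ]
    linarith
  have hγ11 : γ * 11 ≤ 1 := by
    have := min_le_right δ (1 / 11)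
    rw [hγ]
    linarith
  have hbase : ∀ n : ℕ, 2 ≤ n → ∃ w S : ℕ, Real.logb 2 n ≤ w ∧ (w : ℝ) ≤ K * Real.log n ∧
      (S : ℝ) ≤ K * (n : ℝ) ^ 2 / ((n : ℝ) ^ γ) ^ e ∧ Oracle k C prog n w S (K * (n : ℝ) ^ γ) := by
    intro n hn
    have hn1 : (1 : ℝ) ≤ n := by
      have : 1 ≤ n := by omega
      exact_mod_cast this
    refine hK n _ hn (Real.one_le_rpow hn1 hγ0.le) ?_
    rw [← Real.rpow_natCast, ← Real.rpow_mul (by linarith)]
    calc (n : ℝ) ^ (γ * ((11 : ℕ) : ℝ)) ≤ (n : ℝ) ^ (1 : ℝ) :=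
          Real.rpow_le_rpow_of_exponent_le hn1 (by exact_mod_cast hγ11)
      _ = n := Real.rpow_one _
  choose! w S hw1 hw2 hS hO using hbase
  refine ⟨K, w, S, fun n => K * (n : ℝ) ^ γ, ?_, ?_⟩
  · have hev : ∀ᶠ n : ℕ in atTop, K ≤ (n : ℝ) ^ (δ - γ) :=
      ((tendsto_rpow_atTop (sub_pos.2 hγδ)).comp tendsto_natCast_atTop_atTop).eventually_ge_atTop K
    filter_upwards [hev, eventually_ge_atTop 2] with n h1 h2
    refine ⟨hw1 n h2, hw2 n h2, ?_, hO n h2⟩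
    have hn0 : (0 : ℝ) < n := by
      have : 0 < n := by omega
      exact_mod_cast this
    calc K * (n : ℝ) ^ γ ≤ (n : ℝ) ^ (δ - γ) * (n : ℝ) ^ γ := by gcongr
      _ = (n : ℝ) ^ δ := by rw [← Real.rpow_add hn0]; congr 1; ring
  · intro c
    -- polynomial slack beats the logarithm
    set η := γ * (e - β) with hη
    have hη0 : 0 < η := mul_pos hγ0 (sub_pos.2 hgap)
    have hlo := (isLittleO_log_rpow_rpow_atTop c hη0).bound
      (show (0 : ℝ) < 1 / (2 * (K * K ^ β)) by positivity)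
    have hlo' := tendsto_natCast_atTop_atTop.eventually hlo
    filter_upwards [hlo', eventually_ge_atTop 3] with n h1 h2
    have hn0 : (0 : ℝ) < n := by
      have : 0 < n := by omega
      exact_mod_cast this
    have hn3 : (3 : ℝ) ≤ n := by exact_mod_cast h2
    have hlog : 0 < Real.log n := Real.log_pos (by linarith)
    have hlogc : 0 < Real.log n ^ c := Real.rpow_pos_of_pos hlog _
    rw [Real.norm_of_nonneg hlogc.le, Real.norm_of_nonneg (by positivity)] at h1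
    rw [lt_div_iff₀ hlogc]
    have hKβ : 0 < K * K ^ β := by positivity
    have e1 : (S n : ℝ) * (K * (n : ℝ) ^ γ) ^ β ≤ K * K ^ β * ((n : ℝ) ^ 2 / (n : ℝ) ^ η) := by
      have h3 := hS n (by omega)
      calc (S n : ℝ) * (K * (n : ℝ) ^ γ) ^ β
          ≤ K * (n : ℝ) ^ 2 / ((n : ℝ) ^ γ) ^ e * (K * (n : ℝ) ^ γ) ^ β := by gcongr
        _ = K * K ^ β * ((n : ℝ) ^ 2 / (n : ℝ) ^ η) := by
          rw [Real.mul_rpow (by linarith) (by positivity), ← Real.rpow_mul hn0.le,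
            ← Real.rpow_mul hn0.le]
          have h5 : (n : ℝ) ^ (γ * e) = (n : ℝ) ^ η * (n : ℝ) ^ (γ * β) := by
            rw [← Real.rpow_add hn0]
            congr 1
            rw [hη]
            ring
          rw [h5]
          have h6 : (0 : ℝ) < (n : ℝ) ^ η := by positivity
          have h7 : (0 : ℝ) < (n : ℝ) ^ (γ * β) := by positivity
          field_simp
    have hη' : (0 : ℝ) < (n : ℝ) ^ η := by positivity
    calc (S n : ℝ) * (K * (n : ℝ) ^ γ) ^ β * Real.log n ^ c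
        ≤ K * K ^ β * ((n : ℝ) ^ 2 / (n : ℝ) ^ η) * (1 / (2 * (K * K ^ β)) * (n : ℝ) ^ η) := by
          gcongr
      _ = (n : ℝ) ^ 2 / 2 := by
          field_simp
      _ < (n : ℝ) ^ 2 := by
          have : (0 : ℝ) < (n : ℝ) ^ 2 := by positivity
          linarith

end Pool.Agent.U54.KR
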