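import Pool.Agent.U54.KR.Graph

set_option autoImplicit false

/-!
# Reachability in terms of the fronts and the table
-/

namespace Pool.Agent.U54.KR

open Finset

theorem Walk.trans {V : Type} {E : Finset (V × V)} {a b : ℕ} {x y z : V}
    (h : Walk E a x y) (h' : Walk E b y z) : Walk E (a + b) x z := by
  obtain ⟨p, p0, p1, hp⟩ := h
  obtain ⟨q, q0, q1, hq⟩ := h'
  refine ⟨fun i => if i ≤ a then p i else q (i - a), by simp [p0], ?_, ?_⟩
  · rcases Nat.eq_zero_or_pos b with rfl | hb
    · simp only [Nat.add_zero, le_refl, if_true]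
      rw [p1, ← q0, q1]
    · simp only [show ¬ a + b ≤ a by omega, if_false, Nat.add_sub_cancel_left]
      exact q1
  · intro i hi
    rcases lt_trichotomy i a with h | h | h
    · simp only [show i ≤ a by omega, show i + 1 ≤ a by omega, if_true]
      exact hp i h
    · subst h
      simp only [le_refl, if_true, show ¬ i + 1 ≤ i by omega, if_false,
        Nat.add_sub_cancel_left]
      rw [p1, ← q0]
      have := hq 0 (by omega)
      simpa using this
    · simp only [show ¬ i ≤ a by omega, show ¬ i + 1 ≤ a by omega, if_false]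
      have := hq (i - a) (by omega)
      rwa [show i - a + 1 = i + 1 - a by omega] at this

section reach

variable {n : ℕ} (E : Finset (Fin n × Fin n))

/-- soundness of the forward fronts -/
theorem walk_of_front {s : ℕ} {u x : Fin n} {a : ℕ} (h : (x, a) ∈ front (outL E) (al E) s u) :
    Walk E s u x := by
  obtain ⟨p, h0, h1, h2, _⟩ := (mem_front _ _ _ _ _ _).1 h
  exact ⟨p, h0, h1, fun i hi => (mem_outL E _ _).1 (h2 i hi)⟩

/-- soundness of the backward fronts -/
theorem walk_of_front' {s : ℕ} {v y : Fin n} {b : ℕ} (h : (y, b) ∈ front (inL E) (al E) s v) :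
    Walk E s y v := by
  obtain ⟨p, h0, h1, h2, _⟩ := (mem_front _ _ _ _ _ _).1 h
  refine ⟨fun i => p (s - i), by simpa using h1, by simpa using h0, fun i hi => ?_⟩
  have := (mem_inL E _ _).1 (h2 (s - (i + 1)) (by omega))
  rwa [show s - (i + 1) + 1 = s - i by omega] at this

open Classical in
/-- the distance, at most `k + 1` -/
noncomputable def dd (k : ℕ) (x y : Fin n) : ℕ :=
  if h : Reach E k x y then Nat.find h else k + 1

theorem dd_le (k : ℕ) (x y : Fin n) : dd E k x y ≤ k + 1 := by
  classical
  unfold dd
  split_ifs with h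
  · have := (Nat.find_spec h).1
    omega
  · exact le_rfl

theorem dd_le_of_walk {k j : ℕ} {x y : Fin n} (hj : j ≤ k) (h : Walk E j x y) :
    dd E k x y ≤ j := by
  classical
  unfold dd
  have hr : Reach E k x y := ⟨j, hj, h⟩
  rw [dif_pos hr]
  exact Nat.find_min' hr ⟨hj, h⟩

theorem walk_of_dd {k : ℕ} {x y : Fin n} (h : dd E k x y ≤ k) : Walk E (dd E k x y) x y := by
  classical
  unfold dd at h ⊢
  split_ifs at h ⊢ with hr
  · exact (Nat.find_spec hr).2
  · omega

/-- the vertices reached by cheap walks, that are looked up directly -/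
noncomputable def cheap (k L : ℕ) (u : Fin n) : List (Fin n) :=
  (fronts (outL E) (al E) k (k * L) u).map fun f => f.2.1

theorem length_cheap (k L : ℕ) (u : Fin n) :
    (cheap E k L u).length ≤ (k + 1) * 2 ^ (k * L) := by
  unfold cheap
  rw [List.length_map]
  exact length_fronts _ _ (length_outL E) _ _ _

/-- **The query algorithm is correct.** -/
theorem reach_iff (k M L : ℕ) (hL : L * (k ^ 2 / 4) < (M + 1) * k + k ^ 2 / 4) (u v : Fin n) :
    Reach E k u v ↔ v ∈ cheap E k L u ∨
      ∃ f ∈ fronts (outL E) (al E) k M u, ∃ b ∈ fronts (inL E) (al E) k (M - f.2.2) v,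
        rank E b.2.1 < rowLen E L f.2.1 ∧ dd E k f.2.1 b.2.1 + f.1 + b.1 < k + 1 := by
  constructor
  · rintro ⟨ℓ, hℓ, p, p0, p1, hp⟩
    set a : ℕ → ℕ := fun r => al E (p r) with ha
    by_cases hheavy : ∃ r ≤ ℓ, L ≤ a r + 1
    · right
      obtain ⟨s, t, hst, hsum, hLa⟩ := core_numeric k M L ℓ a hℓ (fun r => one_le_al E _) hL hheavy
      refine ⟨(s, p s, ∑ r ∈ range s, a r), ?_, (t, p (ℓ - t), ∑ r ∈ range t, a (ℓ - r)), ?_, ?_, ?_⟩
      · rw [mem_fronts]
        refine ⟨by omega, by omega, (mem_front _ _ _ _ _ _).2 ⟨p, p0, rfl, fun i hi => ?_, rfl⟩⟩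
        exact (mem_outL E _ _).2 (hp i (by omega))
      · rw [mem_fronts]
        refine ⟨by omega, by simp only; omega, (mem_front _ _ _ _ _ _).2
          ⟨fun r => p (ℓ - r), by simpa using p1, rfl, fun i hi => ?_, rfl⟩⟩
        refine (mem_inL E _ _).2 ?_
        have := hp (ℓ - (i + 1)) (by omega)
        rwa [show ℓ - (i + 1) + 1 = ℓ - i by omega] at this
      · exact rank_lt E L hLa
      · have hw : Walk E (ℓ - t - s) (p s) (p (ℓ - t)) := by
          refine ⟨fun i => p (s + i), rfl, ?_, fun i hi => ?_⟩
          · simp only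
            congr 1
            omega
          · have := hp (s + i) (by omega)
            rwa [Nat.add_assoc] at this
        have := dd_le_of_walk E (k := k) (by omega) hw
        simp only
        omega
    · left
      push Not at hheavy
      unfold cheap
      refine List.mem_map.2 ⟨(ℓ, v, ∑ r ∈ range ℓ, a r), ?_, rfl⟩
      rw [mem_fronts]
      refine ⟨hℓ, ?_, (mem_front _ _ _ _ _ _).2 ⟨p, p0, p1, fun i hi => ?_, rfl⟩⟩
      · calc ∑ r ∈ range ℓ, a r ≤ ∑ r ∈ range ℓ, L := by
              refine sum_le_sum fun r hr => ?_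
              rw [mem_range] at hr
              have := hheavy r (by omega)
              omega
          _ = ℓ * L := by simp
          _ ≤ k * L := Nat.mul_le_mul_right _ hℓ
      · exact (mem_outL E _ _).2 (hp i hi)
  · rintro (h | ⟨⟨s, x, a⟩, hf, ⟨t, y, b⟩, hb, _, hd⟩)
    · unfold cheap at h
      obtain ⟨⟨s, x, a⟩, hf, hx⟩ := List.mem_map.1 h
      simp only at hx
      subst hx
      rw [mem_fronts] at hf
      exact ⟨s, hf.1, walk_of_front E hf.2.2⟩
    · rw [mem_fronts] at hf hb
      simp only at hd
      have h1 := walk_of_front E hf.2.2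
      have h2 := walk_of_front' E hb.2.2
      have h3 := walk_of_dd E (k := k) (x := x) (y := y) (by omega)
      exact ⟨s + dd E k x y + t, by omega, (h1.trans h3).trans h2⟩

end reach

/-! ### Overlaying sparse rows -/

/-- Rows with at most `s` entries each can be shifted by at most `m s²` so that they do not
collide. -/
theorem overlay {ι : Type} [DecidableEq ι] (R : ι → Finset ℕ) (s : ℕ)
    (hR : ∀ i, (R i).card ≤ s) (I : Finset ι) :
    ∃ o : ι → ℕ, (∀ i ∈ I, o i ≤ I.card * s ^ 2) ∧
      ∀ i ∈ I, ∀ j ∈ I, ∀ x ∈ R i, ∀ y ∈ R j, o i + x = o j + y → i = j := by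
  classical
  induction I using Finset.induction_on with
  | empty => exact ⟨fun _ => 0, by simp, by simp⟩
  | insert a I ha ih =>
    obtain ⟨o, h1, h2⟩ := ih
    -- the forbidden shifts for `a`
    set bad : Finset ℕ := I.biUnion fun i => (R i ×ˢ R a).image fun p => o i + p.1 - p.2 with hbad
    have hcard : bad.card ≤ I.card * s ^ 2 := by
      refine card_biUnion_le.trans ?_
      calc ∑ i ∈ I, ((R i ×ˢ R a).image fun p => o i + p.1 - p.2).card
          ≤ ∑ i ∈ I, s ^ 2 := by
            refine sum_le_sum fun i _ => card_image_le.trans ?_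
            rw [card_product, sq]
            exact Nat.mul_le_mul (hR i) (hR a)
        _ = I.card * s ^ 2 := by simp
    obtain ⟨z, hz1, hz2⟩ : ∃ z, z ∈ range (I.card * s ^ 2 + 1) ∧ z ∉ bad := by
      by_contra hcon
      push Not at hcon
      have := card_le_card (s := range (I.card * s ^ 2 + 1)) (t := bad) hcon
      rw [card_range] at this
      omega
    rw [mem_range] at hz1
    refine ⟨Function.update o a z, ?_, ?_⟩
    · intro i hi
      rw [card_insert_of_notMem ha, Nat.add_mul, Nat.one_mul]
      rcases mem_insert.1 hi with rfl | hi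
      · rw [Function.update_self]
        omega
      · rw [Function.update_of_ne (ne_of_mem_of_not_mem hi ha)]
        have := h1 i hi
        omega
    · intro i hi j hj x hx y hy he
      rcases mem_insert.1 hi with hi' | hi'
      · rcases mem_insert.1 hj with hj' | hj'
        · rw [hi', hj']
        · exfalso
          subst hi'
          rw [Function.update_self, Function.update_of_ne (ne_of_mem_of_not_mem hj' ha)] at he
          refine hz2 ?_
          rw [hbad]
          refine mem_biUnion.2 ⟨j, hj', mem_image.2 ⟨(y, x), mem_product.2 ⟨hy, hx⟩, ?_⟩⟩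
          simp only
          omega
      · rcases mem_insert.1 hj with hj' | hj'
        · exfalso
          subst hj'
          rw [Function.update_self, Function.update_of_ne (ne_of_mem_of_not_mem hi' ha)] at he
          refine hz2 ?_
          rw [hbad]
          refine mem_biUnion.2 ⟨i, hi', mem_image.2 ⟨(x, y), mem_product.2 ⟨hx, hy⟩, ?_⟩⟩
          simp only
          omega
        · rw [Function.update_of_ne (ne_of_mem_of_not_mem hi' ha),
            Function.update_of_ne (ne_of_mem_of_not_mem hj' ha)] at he
          exact h2 i hi' j hj' x hx y hy he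

/-! ### Packing blocks -/

/-- Blocks of given lengths can be placed one after the other. -/
theorem pack {ι : Type} [DecidableEq ι] (len : ι → ℕ) (I : Finset ι) :
    ∃ base : ι → ℕ, (∀ i ∈ I, base i + len i ≤ ∑ i ∈ I, len i) ∧
      ∀ i ∈ I, ∀ j ∈ I, ∀ x < len i, ∀ y < len j, base i + x = base j + y → i = j := by
  classical
  induction I using Finset.induction_on with
  | empty => exact ⟨fun _ => 0, by simp, by simp⟩
  | insert a I ha ih =>
    obtain ⟨o, h1, h2⟩ := ih
    refine ⟨Function.update o a (∑ i ∈ I, len i), ?_, ?_⟩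
    · intro i hi
      rw [sum_insert ha]
      rcases mem_insert.1 hi with rfl | hi
      · rw [Function.update_self]; omega
      · rw [Function.update_of_ne (ne_of_mem_of_not_mem hi ha)]
        have := h1 i hi
        omega
    · intro i hi j hj x hx y hy he
      rcases mem_insert.1 hi with hi' | hi'
      · rcases mem_insert.1 hj with hj' | hj'
        · rw [hi', hj']
        · exfalso
          subst hi'
          rw [Function.update_self, Function.update_of_ne (ne_of_mem_of_not_mem hj' ha)] at he
          have := h1 j hj'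
          omega
      · rcases mem_insert.1 hj with hj' | hj'
        · exfalso
          subst hj'
          rw [Function.update_self, Function.update_of_ne (ne_of_mem_of_not_mem hi' ha)] at he
          have := h1 i hi'
          omega
        · rw [Function.update_of_ne (ne_of_mem_of_not_mem hi' ha),
            Function.update_of_ne (ne_of_mem_of_not_mem hj' ha)] at he
          exact h2 i hi' j hj' x hx y hy he

end Pool.Agent.U54.KR
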