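import Pool.Agent.U54.KR.Prog
import Pool.Agent.U54.KR.Reach

set_option autoImplicit false
set_option linter.unusedSimpArgs false

/-!
# The memory layout
-/

namespace Pool.Agent.U54.KR

open Pool.Agent.H588R2 Finset

/-- the blocks of the memory: fronts, index blocks, back blocks, rows of the table, direct table -/
abbrev Blk (n M : ℕ) : Type := Fin n ⊕ Fin n ⊕ (Fin n × Fin (M + 1)) ⊕ Fin n ⊕ Unit

section mem

variable {n : ℕ} (E : Finset (Fin n × Fin n)) (k M L : ℕ)

/-- lengths of the blocks -/
noncomputable def blen : Blk n M → ℕ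
  | .inl x => 4 * (fronts (outL E) (al E) k M x).length
  | .inr (.inl _) => 2 * (M + 1)
  | .inr (.inr (.inl (y, c))) => 2 * (fronts (inL E) (al E) k c y).length
  | .inr (.inr (.inr (.inl x))) => rowLen E L x
  | .inr (.inr (.inr (.inr _))) => n * ((k + 1) * 2 ^ (k * L)) ^ 2 + n

/-- the number of words used, if the sum of the degrees (plus one) is at most `N` -/
def space (n k M L N : ℕ) : ℕ :=
  8 * n + (n * (4 * ((k + 1) * 2 ^ M)) + (n * (2 * (M + 1)) +
    (n * ((M + 1) * (2 * ((k + 1) * 2 ^ M))) + (4 * N ^ 2 / 2 ^ L +
      (n * ((k + 1) * 2 ^ (k * L)) ^ 2 + n)))))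

theorem sum_blen {N : ℕ} (hN : n + 2 * E.card ≤ N) :
    8 * n + ∑ i, blen E k M L i ≤ space n k M L N := by
  unfold space
  refine Nat.add_le_add_left ?_ _
  rw [Fintype.sum_sum_type, Fintype.sum_sum_type, Fintype.sum_sum_type, Fintype.sum_sum_type]
  refine Nat.add_le_add ?_ (Nat.add_le_add ?_ (Nat.add_le_add ?_ (Nat.add_le_add ?_ ?_)))
  · calc ∑ x : Fin n, blen E k M L (.inl x) ≤ ∑ x : Fin n, 4 * ((k + 1) * 2 ^ M) :=
        sum_le_sum fun x _ => Nat.mul_le_mul_left _ (length_fronts _ _ (length_outL E) _ _ _)
      _ = n * (4 * ((k + 1) * 2 ^ M)) := by simp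
  · simp [blen]
  · rw [Fintype.sum_prod_type]
    calc ∑ y : Fin n, ∑ c : Fin (M + 1), blen E k M L (.inr (.inr (.inl (y, c))))
        ≤ ∑ y : Fin n, ∑ c : Fin (M + 1), 2 * ((k + 1) * 2 ^ M) := by
          refine sum_le_sum fun y _ => sum_le_sum fun c _ => Nat.mul_le_mul_left _ ?_
          refine (length_fronts _ _ (length_inL E) _ _ _).trans (Nat.mul_le_mul_left _ ?_)
          exact Nat.pow_le_pow_right (by norm_num) (by omega)
      _ = n * ((M + 1) * (2 * ((k + 1) * 2 ^ M))) := by simp
  · rw [Nat.le_div_iff_mul_le (by positivity), Nat.mul_comm]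
    refine (sum_rowLen E L).trans ?_
    exact Nat.mul_le_mul_left _ (Nat.pow_le_pow_left hN 2)
  · simp [blen]

variable (base : Blk n M → ℕ) (o : Fin n → ℕ)

/-- the list stored for the front of `x` -/
noncomputable def FL (x : Fin n) : List (ℕ × ℕ × ℕ × ℕ) :=
  (fronts (outL E) (al E) k M x).map fun f =>
    (8 * n + base (.inr (.inr (.inr (.inl f.2.1)))), rowLen E L f.2.1, f.1, M - f.2.2)

/-- the list stored for the front of `y` in the reversed graph -/
noncomputable def BL (c : ℕ) (y : Fin n) : List (ℕ × ℕ) :=
  (fronts (inL E) (al E) k c y).map fun b => (rank E b.2.1, b.1)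

open Classical in
/-- contents of the blocks -/
noncomputable def content : Blk n M → ℕ → ℕ
  | .inl x, j =>
    if j % 4 = 0 then ((FL E k M L base x).getD (j / 4) (0, 0, 0, 0)).1
    else if j % 4 = 1 then ((FL E k M L base x).getD (j / 4) (0, 0, 0, 0)).2.1
    else if j % 4 = 2 then ((FL E k M L base x).getD (j / 4) (0, 0, 0, 0)).2.2.1
    else 2 * ((FL E k M L base x).getD (j / 4) (0, 0, 0, 0)).2.2.2
  | .inr (.inl y), j =>
    if h : j / 2 < M + 1 then
      8 * n + base (.inr (.inr (.inl (y, ⟨j / 2, h⟩)))) +
        (if j % 2 = 0 then 0 else 2 * (BL E k (j / 2) y).length)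
    else 0
  | .inr (.inr (.inl (y, c))), j =>
    if j % 2 = 0 then ((BL E k c y).getD (j / 2) (0, 0)).1
    else ((BL E k c y).getD (j / 2) (0, 0)).2
  | .inr (.inr (.inr (.inl x))), j =>
    if h : ∃ y, rank E y = j then dd E k x h.choose else k + 1
  | .inr (.inr (.inr (.inr _))), j =>
    if h : ∃ x : Fin n, ∃ y ∈ cheap E k L x, o x + (y : ℕ) = j then h.choose + 1 else 0

/-- contents of the record of a vertex -/
noncomputable def record (x : Fin n) (j : ℕ) : ℕ :=
  if j = 0 then 8 * n + base (.inr (.inr (.inr (.inr ())))) + o x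
  else if j = 1 then 8 * n + base (.inl x)
  else if j = 2 then 8 * n + base (.inl x) + 4 * (FL E k M L base x).length
  else if j = 3 then 8 * n + base (.inr (.inl x))
  else if j = 4 then k + 1
  else 0

open Classical in
/-- the memory -/
noncomputable def memory (a : ℕ) : ℕ :=
  if h : a / 8 < n then record E k M L base o ⟨a / 8, h⟩ (a % 8)
  else if h : ∃ p : Blk n M × ℕ, p.2 < blen E k M L p.1 ∧ 8 * n + base p.1 + p.2 = a then
    content E k M L base o h.choose.1 h.choose.2
  else 0

theorem memory_record (x : Fin n) (j : ℕ) (hj : j < 8) :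
    memory E k M L base o (8 * x + j) = record E k M L base o x j := by
  unfold memory
  have h1 : (8 * (x : ℕ) + j) / 8 = x := by omega
  have h2 : (8 * (x : ℕ) + j) % 8 = j := by omega
  have h : (8 * (x : ℕ) + j) / 8 < n := by rw [h1]; exact x.2
  rw [dif_pos h]
  congr 1
  exact Fin.ext h1

theorem memory_block (hb : ∀ i j : Blk n M, ∀ x < blen E k M L i, ∀ y < blen E k M L j,
    base i + x = base j + y → i = j) (i : Blk n M) (j : ℕ) (hj : j < blen E k M L i) :
    memory E k M L base o (8 * n + base i + j) = content E k M L base o i j := by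
  unfold memory
  rw [dif_neg (by omega)]
  have h : ∃ p : Blk n M × ℕ, p.2 < blen E k M L p.1 ∧ 8 * n + base p.1 + p.2 =
      8 * n + base i + j := ⟨(i, j), hj, rfl⟩
  rw [dif_pos h]
  obtain ⟨h1, h2⟩ := h.choose_spec
  have h3 : h.choose.1 = i := hb _ _ _ h1 _ hj (by omega)
  have h4 : h.choose.2 = j := by
    rw [h3] at h2
    omega
  rw [h4, h3]

end mem

section main

variable {n : ℕ} (E : Finset (Fin n × Fin n)) (k M L : ℕ)

/-- The data structure exists. -/
theorem exists_memory {N : ℕ} (hN : n + 2 * E.card ≤ N)
    (hL : L * (k ^ 2 / 4) < (M + 1) * k + k ^ 2 / 4) :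
    ∃ mem : ℕ → ℕ, (∀ a, mem a < space n k M L N + k + 2) ∧
      (∀ a, space n k M L N ≤ a → mem a = 0) ∧
      ∀ w : ℕ, 8 * (space n k M L N + k + 2) + 16 ≤ 2 ^ w → ∀ u v : Fin n, ∀ T : ℝ,
        (90 * ((k + 1) ^ 2 * 2 ^ M) : ℝ) ≤ T →
        HaltsWithin w prog (start u v mem) T (ind (Reach E k u v)) := by
  classical
  obtain ⟨base, hb1, hb2⟩ := pack (blen E k M L) univ
  obtain ⟨o, ho1, ho2⟩ := overlay (fun x : Fin n => ((cheap E k L x).toFinset.image
    fun y : Fin n => (y : ℕ))) ((k + 1) * 2 ^ (k * L)) (fun x => by
      refine card_image_le.trans ?_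
      exact (List.toFinset_card_le _).trans (length_cheap E k L x)) univ
  replace hb1 : ∀ i, base i + blen E k M L i ≤ ∑ i, blen E k M L i :=
    fun i => hb1 i (mem_univ _)
  replace hb2 : ∀ i j : Blk n M, ∀ x < blen E k M L i, ∀ y < blen E k M L j,
      base i + x = base j + y → i = j :=
    fun i j x hx y hy h => hb2 i (mem_univ _) j (mem_univ _) x hx y hy h
  replace ho1 : ∀ x, o x ≤ n * ((k + 1) * 2 ^ (k * L)) ^ 2 := fun x => by
    have := ho1 x (mem_univ _)
    rwa [card_univ, Fintype.card_fin] at this
  replace ho2 : ∀ x x' : Fin n, ∀ y ∈ cheap E k L x, ∀ y' ∈ cheap E k L x',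
      o x + (y : ℕ) = o x' + (y' : ℕ) → x = x' := fun x x' y hy y' hy' h =>
    ho2 x (mem_univ _) x' (mem_univ _) y (mem_image.2 ⟨y, List.mem_toFinset.2 hy, rfl⟩) y'
      (mem_image.2 ⟨y', List.mem_toFinset.2 hy', rfl⟩) h
  have htot := sum_blen E k M L hN
  set Tot := ∑ i, blen E k M L i with hTot
  set S := space n k M L N with hS
  have hFLlen : ∀ x, (FL E k M L base x).length = (fronts (outL E) (al E) k M x).length :=
    fun x => by unfold FL; rw [List.length_map]
  have hBLlen : ∀ c y, (BL E k c y).length = (fronts (inL E) (al E) k c y).length :=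
    fun c y => by unfold BL; rw [List.length_map]
  have hrow : ∀ x : Fin n, base (.inr (.inr (.inr (.inl x)))) + rowLen E L x ≤ Tot :=
    fun x => hb1 (.inr (.inr (.inr (.inl x))))
  have hback : ∀ (y : Fin n) (c : Fin (M + 1)), base (.inr (.inr (.inl (y, c)))) +
      2 * (BL E k c y).length ≤ Tot := fun y c => by
    have := hb1 (.inr (.inr (.inl (y, c))))
    simp only [blen] at this
    rwa [hBLlen]
  have hfront : ∀ x : Fin n, base (.inl x) + 4 * (FL E k M L base x).length ≤ Tot := fun x => by
    have := hb1 (.inl x)
    simp only [blen] at this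
    rwa [hFLlen]
  have hindex : ∀ x : Fin n, base (.inr (.inl x)) + 2 * (M + 1) ≤ Tot := fun x =>
    hb1 (.inr (.inl x))
  have hdir : base (.inr (.inr (.inr (.inr ())))) +
      (n * ((k + 1) * 2 ^ (k * L)) ^ 2 + n) ≤ Tot := hb1 (.inr (.inr (.inr (.inr ()))))
  have hddle : ∀ x y, dd E k x y ≤ k + 1 := dd_le E k
  have hbound : ∀ a, memory E k M L base o a < S + k + 2 := by
    have hF : ∀ (x : Fin n) (i : ℕ), ((FL E k M L base x).getD i (0, 0, 0, 0)).1 ≤ S ∧
        ((FL E k M L base x).getD i (0, 0, 0, 0)).2.1 ≤ S ∧
        ((FL E k M L base x).getD i (0, 0, 0, 0)).2.2.1 ≤ k ∧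
        2 * ((FL E k M L base x).getD i (0, 0, 0, 0)).2.2.2 ≤ S := by
      intro x i
      rcases Nat.lt_or_ge i (FL E k M L base x).length with hi | hi
      · rw [List.getD_eq_getElem _ _ hi]
        have hm := List.getElem_mem hi
        unfold FL at hm
        obtain ⟨⟨s, y, a⟩, hf, he⟩ := List.mem_map.1 hm
        rw [mem_fronts] at hf
        unfold FL
        rw [← he]
        have h1 := hrow y
        have h2 := hindex x
        exact ⟨by simp only; omega, by simp only; omega, hf.1, by simp only; omega⟩
      · rw [List.getD_eq_default _ _ hi]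
        simp
    have hB : ∀ (c : ℕ) (y : Fin n) (i : ℕ), ((BL E k c y).getD i (0, 0)).1 ≤ S ∧
        ((BL E k c y).getD i (0, 0)).2 ≤ k := by
      intro c y i
      rcases Nat.lt_or_ge i (BL E k c y).length with hi | hi
      · rw [List.getD_eq_getElem _ _ hi]
        have hm := List.getElem_mem hi
        unfold BL at hm
        obtain ⟨⟨s, z, a⟩, hf, he⟩ := List.mem_map.1 hm
        rw [mem_fronts] at hf
        unfold BL
        rw [← he]
        have h1 := rank_lt_n E z
        exact ⟨by simp only; omega, hf.1⟩
      · rw [List.getD_eq_default _ _ hi]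
        simp
    intro a
    unfold memory
    split_ifs with h h'
    · unfold record
      set x : Fin n := ⟨a / 8, h⟩
      have h1 := hdir
      have h2 := ho1 x
      have h3 := hfront x
      have h4 := hindex x
      split_ifs <;> omega
    · generalize h'.choose.1 = i
      generalize h'.choose.2 = j
      rcases i with x | y | ⟨y, c⟩ | x | _
      · have := hF x (j / 4)
        simp only [content]
        split_ifs <;> omega
      · simp only [content]
        split_ifs with h1 h2
        · have := hback y ⟨j / 2, h1⟩
          simp only at this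
          omega
        · have := hback y ⟨j / 2, h1⟩
          simp only at this
          omega
        · omega
      · have := hB c y (j / 2)
        simp only [content]
        split_ifs <;> omega
      · simp only [content]
        split_ifs with h1
        · have := hddle x h1.choose
          omega
        · omega
      · simp only [content]
        split_ifs with h1
        · have := h1.choose.2
          omega
        · omega
    · omega
  refine ⟨memory E k M L base o, hbound, ?_, ?_⟩
  · -- the words after the end
    intro a ha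
    unfold memory
    have h8 : 8 * n ≤ a := by omega
    rw [dif_neg (by omega), dif_neg]
    rintro ⟨⟨i, j⟩, h1, h2⟩
    have := hb1 i
    simp only at h1 h2
    omega
  · -- queries
    intro w hw u v T hT
    have hblk := fun i j (hj : j < blen E k M L i) =>
      memory_block E k M L base o hb2 i j hj
    -- the value of an index block
    have hix : ∀ c (hc : c < M + 1),
        memory E k M L base o (8 * n + base (.inr (.inl v)) + 2 * c) =
          8 * n + base (.inr (.inr (.inl (v, ⟨c, hc⟩)))) := by
      intro c hc
      rw [hblk (.inr (.inl v)) (2 * c) (by simp only [blen]; omega)]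
      simp only [content]
      have e1 : 2 * c / 2 = c := by omega
      have e2 : 2 * c % 2 = 0 := by omega
      rw [dif_pos (by rw [e1]; exact hc), if_pos e2]
      simp only [e1, Nat.add_zero]
    have hix' : ∀ c (hc : c < M + 1),
        memory E k M L base o (8 * n + base (.inr (.inl v)) + 2 * c + 1) =
          8 * n + base (.inr (.inr (.inl (v, ⟨c, hc⟩)))) + 2 * (BL E k c v).length := by
      intro c hc
      rw [Nat.add_assoc (8 * n + base (.inr (.inl v)))]
      rw [hblk (.inr (.inl v)) (2 * c + 1) (by simp only [blen]; omega)]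
      simp only [content]
      have e1 : (2 * c + 1) / 2 = c := by omega
      rw [dif_pos (by rw [e1]; exact hc), if_neg (by omega)]
      simp only [e1]
    have hFc : ∀ (i : ℕ) (hi : i < (FL E k M L base u).length),
        (FL E k M L base u)[i].2.2.2 < M + 1 := by
      intro i hi
      have hm := List.getElem_mem hi
      unfold FL at hm
      obtain ⟨⟨s, y, a⟩, hf, he⟩ := List.mem_map.1 hm
      unfold FL
      rw [← he]
      simp only
      omega
    set bs : ℕ → ℕ := fun c => if hc : c < M + 1 then
      8 * n + base (.inr (.inr (.inl (v, ⟨c, hc⟩)))) else 0 with hbs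
    have hbsc : ∀ c (hc : c < M + 1), bs c = 8 * n + base (.inr (.inr (.inl (v, ⟨c, hc⟩)))) :=
      fun c hc => by rw [hbs]; simp only; rw [dif_pos hc]
    have spec : Spec w (memory E k M L base o) (S + k + 2) u v
        (8 * n + base (.inr (.inr (.inr (.inr ())))) + o u) (8 * n + base (.inl u))
        (8 * n + base (.inr (.inl v))) (k + 1) (FL E k M L base u) bs
        (fun c => BL E k c v) := by
      refine ⟨hw, ?_, ?_, ?_, ?_, ?_, ?_, ?_, ?_, ?_, ?_, ?_, ?_, ?_, ?_, ?_, ?_⟩
      · have := u.2; omega
      · have := v.2; omega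
      · exact hbound
      · have := memory_record E k M L base o u 0 (by norm_num)
        rw [Nat.add_zero] at this
        rw [this]
        simp [record]
      · rw [memory_record E k M L base o u 1 (by norm_num)]
        simp [record]
      · rw [memory_record E k M L base o u 2 (by norm_num)]
        simp [record]
      · rw [memory_record E k M L base o v 3 (by norm_num)]
        simp [record]
      · rw [memory_record E k M L base o u 4 (by norm_num)]
        simp [record]
      · intro i hi
        rw [hblk (.inl u) (4 * i) (by simp only [blen]; rw [hFLlen] at hi; omega)]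
        simp only [content]
        rw [if_pos (by omega), show 4 * i / 4 = i by omega, List.getD_eq_getElem _ _ hi]
      · intro i hi
        rw [Nat.add_assoc (8 * n + base (.inl u))]
        rw [hblk (.inl u) (4 * i + 1) (by simp only [blen]; rw [hFLlen] at hi; omega)]
        simp only [content]
        rw [if_neg (by omega), if_pos (by omega), show (4 * i + 1) / 4 = i by omega,
          List.getD_eq_getElem _ _ hi]
      · intro i hi
        rw [Nat.add_assoc (8 * n + base (.inl u))]
        rw [hblk (.inl u) (4 * i + 2) (by simp only [blen]; rw [hFLlen] at hi; omega)]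
        simp only [content]
        rw [if_neg (by omega), if_neg (by omega), if_pos (by omega),
          show (4 * i + 2) / 4 = i by omega, List.getD_eq_getElem _ _ hi]
      · intro i hi
        rw [Nat.add_assoc (8 * n + base (.inl u))]
        rw [hblk (.inl u) (4 * i + 3) (by simp only [blen]; rw [hFLlen] at hi; omega)]
        simp only [content]
        rw [if_neg (by omega), if_neg (by omega), if_neg (by omega),
          show (4 * i + 3) / 4 = i by omega, List.getD_eq_getElem _ _ hi]
      · intro i hi
        rw [hix _ (hFc i hi), hbsc _ (hFc i hi)]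
      · intro i hi
        rw [hix' _ (hFc i hi), hbsc _ (hFc i hi)]
      · intro i hi j hj
        rw [hbsc _ (hFc i hi)]
        rw [hblk (.inr (.inr (.inl (v, ⟨_, hFc i hi⟩)))) (2 * j) (by
          simp only [blen]; rw [hBLlen] at hj; omega)]
        simp only [content]
        rw [if_pos (by omega), show 2 * j / 2 = j by omega, List.getD_eq_getElem _ _ hj]
      · intro i hi j hj
        rw [hbsc _ (hFc i hi)]
        rw [Nat.add_assoc (8 * n + base (.inr (.inr (.inl (v, ⟨_, hFc i hi⟩)))))]
        rw [hblk (.inr (.inr (.inl (v, ⟨_, hFc i hi⟩)))) (2 * j + 1) (by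
          simp only [blen]; rw [hBLlen] at hj; omega)]
        simp only [content]
        rw [if_neg (by omega), show (2 * j + 1) / 2 = j by omega, List.getD_eq_getElem _ _ hj]
    have htime : ((FL E k M L base u).map fun f => 30 + 20 * (BL E k f.2.2.2 v).length).sum + 30 ≤
        90 * ((k + 1) ^ 2 * 2 ^ M) := by
      have h1 : ∀ l : List (ℕ × Fin n × ℕ), (∀ f ∈ l, f.2.2 ≤ M) →
          ((l.map fun f => (8 * n + base (.inr (.inr (.inr (.inl f.2.1)))), rowLen E L f.2.1, f.1,
            M - f.2.2)).map fun f => 30 + 20 * (BL E k f.2.2.2 v).length).sum ≤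
          50 * ((k + 1) * (l.map fun f => 2 ^ (M - f.2.2)).sum) := by
        intro l
        induction l with
        | nil => intro _; simp
        | cons f l ih =>
          intro hl
          have h2 := ih fun g hg => hl g (List.mem_cons_of_mem _ hg)
          simp only [List.map_cons, List.sum_cons] at h2 ⊢
          have h3 : (BL E k (M - f.2.2) v).length ≤ (k + 1) * 2 ^ (M - f.2.2) := by
            rw [hBLlen]
            exact length_fronts _ _ (length_inL E) _ _ _
          have h4 : 1 ≤ (k + 1) * 2 ^ (M - f.2.2) := Nat.mul_pos (by omega) (by positivity)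
          rw [Nat.mul_add, Nat.mul_add]
          omega
      have h2 := h1 (fronts (outL E) (al E) k M u) (by
        rintro ⟨s, x, a⟩ hf
        rw [mem_fronts] at hf
        exact hf.2.1)
      have h3 := kraft_fronts (outL E) (al E) (length_outL E) k M u
      have h4 : ((FL E k M L base u).map fun f => 30 + 20 * (BL E k f.2.2.2 v).length).sum ≤
          50 * ((k + 1) * ((k + 1) * 2 ^ M)) := by
        unfold FL
        exact h2.trans (Nat.mul_le_mul_left _ (Nat.mul_le_mul_left _ h3))
      have h5 : (k + 1) * ((k + 1) * 2 ^ M) = (k + 1) ^ 2 * 2 ^ M := by ring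
      rw [h5] at h4
      have h6 : 1 ≤ (k + 1) ^ 2 * 2 ^ M := Nat.mul_pos (by positivity) (by positivity)
      omega
    have hfin := prog_correct spec T (by
      refine le_trans ?_ hT
      exact_mod_cast htime)
    have hcell : ∀ (x y : Fin n), rank E y < rowLen E L x →
        memory E k M L base o (8 * n + base (.inr (.inr (.inr (.inl x)))) + rank E y) =
          dd E k x y := by
      intro x y h
      rw [hblk (.inr (.inr (.inr (.inl x)))) (rank E y) h]
      simp only [content]
      have hex : ∃ z, rank E z = rank E y := ⟨y, rfl⟩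
      rw [dif_pos hex]
      congr 1
      exact rank_inj E hex.choose_spec
    have hdirect : memory E k M L base o
        (8 * n + base (.inr (.inr (.inr (.inr ())))) + o u + v) = u + 1 ↔ v ∈ cheap E k L u := by
      rw [Nat.add_assoc (8 * n + base (.inr (.inr (.inr (.inr ())))))]
      rw [hblk (.inr (.inr (.inr (.inr ())))) (o u + v) (by
        simp only [blen]
        have := ho1 u
        have := v.2
        omega)]
      simp only [content]
      constructor
      · intro h
        split_ifs at h with hex
        · have hu : hex.choose = u := Fin.ext (by omega)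
          obtain ⟨y, hy, he⟩ := hex.choose_spec
          rw [hu] at hy he
          have : y = v := Fin.ext (by omega)
          rwa [this] at hy
      · intro h
        have hex : ∃ x : Fin n, ∃ y ∈ cheap E k L x, o x + (y : ℕ) = o u + v := ⟨u, v, h, rfl⟩
        rw [dif_pos hex]
        obtain ⟨y, hy, he⟩ := hex.choose_spec
        rw [ho2 _ _ y hy v h he]
    rw [show ind (Reach E k u v) = ind (memory E k M L base o
        (8 * n + base (.inr (.inr (.inr (.inr ())))) + o u + v) = u + 1 ∨
        ∃ f ∈ FL E k M L base u, ∃ b ∈ BL E k f.2.2.2 v,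
          cond (memory E k M L base o) (k + 1) f b) from ?_]
    · exact hfin
    · refine ind_congr ?_
      rw [reach_iff E k M L hL u v, hdirect]
      refine or_congr Iff.rfl ?_
      constructor
      · rintro ⟨f, hf, b, hb, h1, h2⟩
        refine ⟨_, List.mem_map.2 ⟨f, hf, rfl⟩, _, List.mem_map.2 ⟨b, hb, rfl⟩, h1, ?_⟩
        simp only
        rw [hcell _ _ h1]
        exact h2
      · rintro ⟨f', hf', b', hb', h1, h2⟩
        obtain ⟨f, hf, rfl⟩ := List.mem_map.1 hf'
        obtain ⟨b, hb, rfl⟩ := List.mem_map.1 hb'
        simp only at h1 h2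
        rw [hcell _ _ h1] at h2
        exact ⟨f, hf, b, hb, h1, h2⟩

end main

end Pool.Agent.U54.KR
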