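import Pool.Agent.U54.KR.Defs
import Pool.Agent.H588R2.Ram

set_option autoImplicit false
set_option linter.unusedSimpArgs false

/-!
# The query program
-/

namespace Pool.Agent.U54.KR

open Pool.Agent.H588R2

/-! ### Straight-line code -/

/-- effect of an operation without overflow -/
def ideal : Op → St → St
  | .const d c, s => s.set d c
  | .add d a b, s => s.set d (s.reg a + s.reg b)
  | .sub d a b, s => s.set d (s.reg a - s.reg b)
  | .mul d a b, s => s.set d (s.reg a * s.reg b)
  | .load d a, s => s.set d (s.mem (s.reg a))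
  | .store a b, s => ⟨s.reg, Function.update s.mem (s.reg a) (s.reg b)⟩

/-- no overflow -/
def okOp (w : ℕ) : Op → St → Prop
  | .const _ c, _ => c < 2 ^ w
  | .add _ a b, s => s.reg a + s.reg b < 2 ^ w
  | .sub _ a b, s => s.reg a - s.reg b < 2 ^ w
  | .mul _ a b, s => s.reg a * s.reg b < 2 ^ w
  | .load _ a, s => s.mem (s.reg a) < 2 ^ w
  | .store _ _, _ => True

theorem exec_eq {w : ℕ} {o : Op} {s : St} (h : okOp w o s) : o.exec w s = ideal o s := by
  cases o with
  | const d c =>
    have : c < 2 ^ w := h
    simp [Op.exec, ideal, St.set, Nat.mod_eq_of_lt this]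
  | add d a b =>
    have : s.reg a + s.reg b < 2 ^ w := h
    simp [Op.exec, ideal, St.set, Nat.mod_eq_of_lt this]
  | sub d a b =>
    have : s.reg a - s.reg b < 2 ^ w := h
    simp [Op.exec, ideal, St.set, Nat.mod_eq_of_lt this]
  | mul d a b =>
    have : s.reg a * s.reg b < 2 ^ w := h
    simp [Op.exec, ideal, St.set, Nat.mod_eq_of_lt this]
  | load d a =>
    have : s.mem (s.reg a) < 2 ^ w := h
    simp [Op.exec, ideal, St.set, Nat.mod_eq_of_lt this]
  | store a b => rfl

/-- a list of operations as a command -/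
def seqOps : List Op → Cmd
  | [] => .skip
  | o :: l => .seq (.op o) (seqOps l)

/-- effect of a list of operations without overflow -/
def idealL : List Op → St → St
  | [], s => s
  | o :: l, s => idealL l (ideal o s)

/-- no overflow in a list of operations -/
def okL (w : ℕ) : List Op → St → Prop
  | [], _ => True
  | o :: l, s => okOp w o s ∧ okL w l (ideal o s)

theorem runs_seqOps {w : ℕ} : ∀ (l : List Op) (s : St) {Q : St → ℕ → Prop}, okL w l s →
    Q (idealL l s) l.length → Runs w (seqOps l) s Q := by
  intro l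
  induction l with
  | nil => intro s Q _ hQ; exact Runs.skip hQ
  | cons o l ih =>
    intro s Q hok hQ
    refine Runs.seq (Runs.op ?_)
    rw [exec_eq hok.1]
    refine ih _ hok.2 ?_
    rw [List.length_cons, Nat.add_comm] at hQ
    exact hQ

/-! ### The program -/

/-- set the constants, find the records of `u` and `v` -/
def init : List Op :=
  [.const 2 8, .mul 3 0 2, .mul 4 1 2, .const 5 1, .const 6 2, .const 7 3, .const 26 4,
   .load 8 3, .add 9 3 5, .load 9 9, .add 10 3 6, .load 10 10, .add 11 4 7, .load 11 11,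
   .add 12 3 26, .load 12 12, .const 13 0, .add 14 8 1, .load 14 14, .add 15 0 6]

/-- the test of the direct table -/
def direct : Cmd := .ite 0 14 (.ite 14 15 (.op (.const 13 1)) .skip) .skip

/-- read an entry of the front of `u` and the bounds of the matching block of `v` -/
def readFront : List Op :=
  [.load 16 9, .add 17 9 5, .load 17 17, .add 18 9 6, .load 18 18, .add 19 9 7, .load 19 19,
   .add 20 11 19, .load 21 20, .add 22 20 5, .load 22 22]

/-- read an entry of the front of `v` -/
def readBack : List Op := [.load 23 21, .add 24 21 5, .load 24 24]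

/-- look into the table -/
def look : List Op := [.add 25 16 23, .load 25 25, .add 25 25 18, .add 25 25 24]

/-- the body of the inner loop -/
def inner : Cmd :=
  .seq (seqOps readBack)
    (.seq (.ite 23 17 (.seq (seqOps look) (.ite 25 12 (.op (.const 13 1)) .skip)) .skip)
      (.op (.add 21 21 6)))

/-- the body of the outer loop -/
def outer : Cmd :=
  .seq (seqOps readFront) (.seq (.loop 21 22 inner) (.op (.add 9 9 26)))

/-- the query -/
def query : Cmd :=
  .seq (seqOps init) (.seq direct (.seq (.loop 9 10 outer) (seqOps [.const 27 0, .add 0 13 27])))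

/-- the query program -/
def prog : List Instr := query.compile 0 ++ [.halt]

theorem readOnly_prog : ReadOnly prog := by
  intro a s
  simp [prog, query, outer, inner, direct, seqOps, init, readFront, readBack, look, Cmd.compile]

/-! ### Correctness -/

open Classical in
/-- the number `1` for true and `0` for false -/
noncomputable def ind (P : Prop) : ℕ := if P then 1 else 0

/-- The contents of the memory that matter for a query. -/
structure Spec (w : ℕ) (M : ℕ → ℕ) (X u v o fs bp k1 : ℕ) (F : List (ℕ × ℕ × ℕ × ℕ))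
    (bs : ℕ → ℕ) (B : ℕ → List (ℕ × ℕ)) : Prop where
  hw : 8 * X + 16 ≤ 2 ^ w
  hu : u < X
  hv : v < X
  hM : ∀ a, M a < X
  m0 : M (8 * u) = o
  m1 : M (8 * u + 1) = fs
  m2 : M (8 * u + 2) = fs + 4 * F.length
  m3 : M (8 * v + 3) = bp
  m4 : M (8 * u + 4) = k1
  f0 : ∀ i (hi : i < F.length), M (fs + 4 * i) = F[i].1
  f1 : ∀ i (hi : i < F.length), M (fs + 4 * i + 1) = F[i].2.1
  f2 : ∀ i (hi : i < F.length), M (fs + 4 * i + 2) = F[i].2.2.1
  f3 : ∀ i (hi : i < F.length), M (fs + 4 * i + 3) = 2 * F[i].2.2.2
  b0 : ∀ i (hi : i < F.length), M (bp + 2 * F[i].2.2.2) = bs F[i].2.2.2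
  b1 : ∀ i (hi : i < F.length),
    M (bp + 2 * F[i].2.2.2 + 1) = bs F[i].2.2.2 + 2 * (B F[i].2.2.2).length
  b2 : ∀ i (hi : i < F.length) j (hj : j < (B F[i].2.2.2).length),
    M (bs F[i].2.2.2 + 2 * j) = (B F[i].2.2.2)[j].1
  b3 : ∀ i (hi : i < F.length) j (hj : j < (B F[i].2.2.2).length),
    M (bs F[i].2.2.2 + 2 * j + 1) = (B F[i].2.2.2)[j].2

/-- the test for a pair of entries -/
def cond (M : ℕ → ℕ) (k1 : ℕ) (f : ℕ × ℕ × ℕ × ℕ) (b : ℕ × ℕ) : Prop :=
  b.1 < f.2.1 ∧ M (f.1 + b.1) + f.2.2.1 + b.2 < k1

/-- the part of the state that is not changed -/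
structure Frame (M : ℕ → ℕ) (fe bp k1 : ℕ) (s : St) : Prop where
  mem : s.mem = M
  r5 : s.reg 5 = 1
  r6 : s.reg 6 = 2
  r7 : s.reg 7 = 3
  r26 : s.reg 26 = 4
  r10 : s.reg 10 = fe
  r11 : s.reg 11 = bp
  r12 : s.reg 12 = k1

theorem ind_or_of {P Q : Prop} (h : Q) : ind (P ∨ Q) = 1 := by
  unfold ind; rw [if_pos (Or.inr h)]

theorem ind_or_not {P Q : Prop} (h : ¬ Q) : ind (P ∨ Q) = ind P := by
  unfold ind
  by_cases hP : P
  · rw [if_pos (Or.inl hP), if_pos hP]
  · rw [if_neg (by tauto), if_neg hP]

theorem ind_congr {P Q : Prop} (h : P ↔ Q) : ind P = ind Q := by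
  rw [propext h]

theorem inner_runs {w : ℕ} {M : ℕ → ℕ} {X u v o fs bp k1 : ℕ} {F : List (ℕ × ℕ × ℕ × ℕ)}
    {bs : ℕ → ℕ} {B : ℕ → List (ℕ × ℕ)} (S : Spec w M X u v o fs bp k1 F bs B)
    (i : ℕ) (hi : i < F.length) (A : Prop) (s : St)
    (fr : Frame M (fs + 4 * F.length) bp k1 s)
    (h9 : s.reg 9 = fs + 4 * i) (h16 : s.reg 16 = F[i].1) (h17 : s.reg 17 = F[i].2.1)
    (h18 : s.reg 18 = F[i].2.2.1) (h21 : s.reg 21 = bs F[i].2.2.2)
    (h22 : s.reg 22 = bs F[i].2.2.2 + 2 * (B F[i].2.2.2).length)
    (h13 : s.reg 13 = ind A) {Q : St → ℕ → Prop}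
    (hQ : ∀ s' τ, Frame M (fs + 4 * F.length) bp k1 s' → s'.reg 9 = fs + 4 * i →
      s'.reg 13 = ind (A ∨ ∃ b ∈ B F[i].2.2.2, cond M k1 F[i] b) →
      τ ≤ 20 * (B F[i].2.2.2).length + 2 → Q s' τ) :
    Runs w (.loop 21 22 inner) s Q := by
  set c := F[i].2.2.2 with hc
  have hw := S.hw
  have hM := S.hM
  have hlen : F[i].2.1 < X := by rw [← S.f1 i hi]; exact hM _
  have hrow : F[i].1 < X := by rw [← S.f0 i hi]; exact hM _
  have hs : F[i].2.2.1 < X := by rw [← S.f2 i hi]; exact hM _
  have hbe : bs c + 2 * (B c).length < X := by rw [← S.b1 i hi]; exact hM _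
  refine Runs.loop (B c).length (fun j s' τ => Frame M (fs + 4 * F.length) bp k1 s' ∧
    s'.reg 9 = fs + 4 * i ∧ s'.reg 16 = F[i].1 ∧ s'.reg 17 = F[i].2.1 ∧ s'.reg 18 = F[i].2.2.1 ∧
    s'.reg 21 = bs c + 2 * j ∧ s'.reg 22 = bs c + 2 * (B c).length ∧
    s'.reg 13 = ind (A ∨ ∃ b ∈ (B c).take j, cond M k1 F[i] b) ∧ τ ≤ 20 * j) ?_ ?_ ?_ ?_
  · rintro j s' τ hj ⟨fr', g9, g16, g17, g18, g21, g22, g13, gτ⟩
    refine ⟨by rw [g21, g22]; omega, ?_⟩
    have eb0 : M (bs c + 2 * j) = (B c)[j].1 := S.b2 i hi j hj
    have eb1 : M (bs c + 2 * j + 1) = (B c)[j].2 := S.b3 i hi j hj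
    have xb0 : (B c)[j].1 < X := by rw [← eb0]; exact hM _
    have xb1 : (B c)[j].2 < X := by rw [← eb1]; exact hM _
    have htake : (B c).take (j + 1) = (B c).take j ++ [(B c)[j]] := by
      rw [List.take_add_one, List.getElem?_eq_getElem hj]
      rfl
    have hiff : (A ∨ ∃ b ∈ (B c).take (j + 1), cond M k1 F[i] b) ↔
        ((A ∨ ∃ b ∈ (B c).take j, cond M k1 F[i] b) ∨ cond M k1 F[i] (B c)[j]) := by
      rw [htake]
      constructor
      · rintro (h | ⟨b, hb, h⟩)
        · exact Or.inl (Or.inl h)
        · rcases List.mem_append.1 hb with hb | hb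
          · exact Or.inl (Or.inr ⟨b, hb, h⟩)
          · rw [List.mem_singleton] at hb
            rw [hb] at h
            exact Or.inr h
      · rintro ((h | ⟨b, hb, h⟩) | h)
        · exact Or.inl h
        · exact Or.inr ⟨b, List.mem_append_left _ hb, h⟩
        · exact Or.inr ⟨_, List.mem_append_right _ (List.mem_singleton.2 rfl), h⟩
    unfold inner
    refine Runs.seq (runs_seqOps readBack s' ?_ ?_)
    · simp only [readBack, okL, okOp, ideal, St.set, Function.update_apply, fr'.mem, g21, fr'.r5,
        eb0, eb1]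
      norm_num
      omega
    · set s1 := idealL readBack s' with hs1
      have q23 : s1.reg 23 = (B c)[j].1 := by
        simp [hs1, readBack, idealL, ideal, St.set, Function.update_apply, fr'.mem, g21, eb0]
      have q24 : s1.reg 24 = (B c)[j].2 := by
        simp [hs1, readBack, idealL, ideal, St.set, Function.update_apply, fr'.mem, g21, fr'.r5,
          eb1]
      have qo : ∀ r, r ≠ 23 → r ≠ 24 → s1.reg r = s'.reg r := by
        intro r h1 h2
        simp [hs1, readBack, idealL, ideal, St.set, Function.update_apply, h1, h2]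
      have qm : s1.mem = M := by
        simp [hs1, readBack, idealL, ideal, St.set, fr'.mem]
      -- the conclusion of the body, from a state after the test
      have fin : ∀ (s2 : St) (t : ℕ), s2.mem = M → (∀ r, r ≠ 13 → r ≠ 25 → s2.reg r = s1.reg r) →
          s2.reg 13 = ind (A ∨ ∃ b ∈ (B c).take (j + 1), cond M k1 F[i] b) → t ≤ 12 →
          Runs w (.op (.add 21 21 6)) s2 (fun s'' t' =>
            (Frame M (fs + 4 * F.length) bp k1 s'' ∧
            s''.reg 9 = fs + 4 * i ∧ s''.reg 16 = F[i].1 ∧ s''.reg 17 = F[i].2.1 ∧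
            s''.reg 18 = F[i].2.2.1 ∧ s''.reg 21 = bs c + 2 * (j + 1) ∧
            s''.reg 22 = bs c + 2 * (B c).length ∧
            s''.reg 13 = ind (A ∨ ∃ b ∈ (B c).take (j + 1), cond M k1 F[i] b) ∧
            τ + (readBack.length + (t + t') + 2) ≤ 20 * (j + 1))) := by
        intro s2 t k0 k2 k13 kt
        have e21 : s2.reg 21 = bs c + 2 * j := by
          rw [k2 21 (by norm_num) (by norm_num), qo 21 (by norm_num) (by norm_num), g21]
        have e6 : s2.reg 6 = 2 := by
          rw [k2 6 (by norm_num) (by norm_num), qo 6 (by norm_num) (by norm_num), fr'.r6]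
        refine Runs.add ?_ ?_
        · rw [e21, e6]; omega
        · have ee : ∀ r, r ≠ 13 → r ≠ 25 → r ≠ 23 → r ≠ 24 → r ≠ 21 →
              (s2.set 21 (s2.reg 21 + s2.reg 6)).reg r = s'.reg r := by
            intro r a1 a2 a3 a4 a5
            rw [St.set_reg_ne _ _ a5, k2 r a1 a2, qo r a3 a4]
          refine ⟨⟨by rw [St.set_mem, k0], ?_, ?_, ?_, ?_, ?_, ?_, ?_⟩, ?_, ?_, ?_, ?_, ?_, ?_, ?_, ?_⟩
          · rw [ee 5 (by norm_num) (by norm_num) (by norm_num) (by norm_num) (by norm_num), fr'.r5]
          · rw [ee 6 (by norm_num) (by norm_num) (by norm_num) (by norm_num) (by norm_num), fr'.r6]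
          · rw [ee 7 (by norm_num) (by norm_num) (by norm_num) (by norm_num) (by norm_num), fr'.r7]
          · rw [ee 26 (by norm_num) (by norm_num) (by norm_num) (by norm_num) (by norm_num),
              fr'.r26]
          · rw [ee 10 (by norm_num) (by norm_num) (by norm_num) (by norm_num) (by norm_num),
              fr'.r10]
          · rw [ee 11 (by norm_num) (by norm_num) (by norm_num) (by norm_num) (by norm_num),
              fr'.r11]
          · rw [ee 12 (by norm_num) (by norm_num) (by norm_num) (by norm_num) (by norm_num),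
              fr'.r12]
          · rw [ee 9 (by norm_num) (by norm_num) (by norm_num) (by norm_num) (by norm_num), g9]
          · rw [ee 16 (by norm_num) (by norm_num) (by norm_num) (by norm_num) (by norm_num), g16]
          · rw [ee 17 (by norm_num) (by norm_num) (by norm_num) (by norm_num) (by norm_num), g17]
          · rw [ee 18 (by norm_num) (by norm_num) (by norm_num) (by norm_num) (by norm_num), g18]
          · rw [St.set_reg_self, e21, e6]; ring
          · rw [ee 22 (by norm_num) (by norm_num) (by norm_num) (by norm_num) (by norm_num), g22]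
          · rw [St.set_reg_ne _ _ (by norm_num), k13]
          · simp only [readBack, List.length_cons, List.length_nil]; omega
      refine Runs.seq (Runs.ite ?_ ?_)
      · intro hlt
        rw [q23, qo 17 (by norm_num) (by norm_num), g17] at hlt
        refine Runs.seq (runs_seqOps look s1 ?_ ?_)
        · have x1 := hM (F[i].1 + (B c)[j].1)
          simp only [look, okL, okOp, ideal, St.set, Function.update_apply, qm, q23, q24,
            qo 16 (by norm_num) (by norm_num), qo 18 (by norm_num) (by norm_num), g16, g18]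
          norm_num
          omega
        · set s2 := idealL look s1 with hs2
          have p25 : s2.reg 25 = M (F[i].1 + (B c)[j].1) + F[i].2.2.1 + (B c)[j].2 := by
            simp [hs2, look, idealL, ideal, St.set, Function.update_apply, qm, q23, q24,
              qo 16 (by norm_num) (by norm_num), qo 18 (by norm_num) (by norm_num), g16, g18]
          have po : ∀ r, r ≠ 25 → s2.reg r = s1.reg r := by
            intro r h1
            simp [hs2, look, idealL, ideal, St.set, Function.update_apply, h1]
          have pm : s2.mem = M := by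
            simp [hs2, look, idealL, ideal, St.set, qm]
          have p12 : s2.reg 12 = k1 := by
            rw [po 12 (by norm_num), qo 12 (by norm_num) (by norm_num), fr'.r12]
          have p13 : s2.reg 13 = ind (A ∨ ∃ b ∈ (B c).take j, cond M k1 F[i] b) := by
            rw [po 13 (by norm_num), qo 13 (by norm_num) (by norm_num), g13]
          refine Runs.ite ?_ ?_
          · intro hlt2
            rw [p25, p12] at hlt2
            refine Runs.const (by omega) ?_
            refine fin _ _ ?_ ?_ ?_ ?_
            · rw [St.set_mem, pm]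
            · intro r a1 a2
              rw [St.set_reg_ne _ _ a1, po r a2]
            · rw [St.set_reg_self, ind_congr hiff]
              exact (ind_or_of ⟨hlt, hlt2⟩).symm
            · simp [look]
          · intro hlt2
            rw [p25, p12] at hlt2
            refine Runs.skip ?_
            refine fin _ _ pm (fun r _ a2 => po r a2) ?_ ?_
            · rw [p13, ind_congr hiff]
              exact (ind_or_not (fun h => hlt2 h.2)).symm
            · simp [look]
      · intro hlt
        rw [q23, qo 17 (by norm_num) (by norm_num), g17] at hlt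
        refine Runs.skip ?_
        refine fin _ _ qm (fun _ _ _ => rfl) ?_ (by norm_num)
        rw [qo 13 (by norm_num) (by norm_num), g13, ind_congr hiff]
        exact (ind_or_not (fun h => hlt h.1)).symm
  · rintro s' τ ⟨fr', g9, g16, g17, g18, g21, g22, g13, gτ⟩
    rw [g21, g22]
    omega
  · refine ⟨fr, h9, h16, h17, h18, by rw [h21]; ring, h22, ?_, by norm_num⟩
    rw [h13]
    refine ind_congr ?_
    simp
  · rintro s' τ ⟨fr', g9, g16, g17, g18, g21, g22, g13, gτ⟩
    rw [List.take_length] at g13
    exact hQ s' _ fr' g9 g13 (by omega)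

theorem outer_runs {w : ℕ} {M : ℕ → ℕ} {X u v o fs bp k1 : ℕ} {F : List (ℕ × ℕ × ℕ × ℕ)}
    {bs : ℕ → ℕ} {B : ℕ → List (ℕ × ℕ)} (S : Spec w M X u v o fs bp k1 F bs B)
    (A : Prop) (s : St)
    (fr : Frame M (fs + 4 * F.length) bp k1 s)
    (h9 : s.reg 9 = fs)
    (h13 : s.reg 13 = ind A) {Q : St → ℕ → Prop}
    (hQ : ∀ s' τ, s'.reg 13 = ind (A ∨ ∃ f ∈ F, ∃ b ∈ B f.2.2.2, cond M k1 f b) →
      τ ≤ (F.map fun f => 30 + 20 * (B f.2.2.2).length).sum + 2 → Q s' τ) :
    Runs w (.loop 9 10 outer) s Q := by
  have hw := S.hw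
  have hM := S.hM
  have hfe : fs + 4 * F.length < X := by rw [← S.m2]; exact hM _
  refine Runs.loop F.length (fun i s' τ => Frame M (fs + 4 * F.length) bp k1 s' ∧
    s'.reg 9 = fs + 4 * i ∧
    s'.reg 13 = ind (A ∨ ∃ f ∈ F.take i, ∃ b ∈ B f.2.2.2, cond M k1 f b) ∧
    τ ≤ ((F.take i).map fun f => 30 + 20 * (B f.2.2.2).length).sum) ?_ ?_ ?_ ?_
  · rintro i s' τ hi ⟨fr', g9, g13, gτ⟩
    refine ⟨by rw [g9, fr'.r10]; omega, ?_⟩
    have ef0 := S.f0 i hi
    have ef1 := S.f1 i hi
    have ef2 := S.f2 i hi
    have ef3 := S.f3 i hi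
    have eb0 := S.b0 i hi
    have eb1 := S.b1 i hi
    have hbp : bp < X := by rw [← S.m3]; exact hM _
    have x0 : F[i].1 < X := by rw [← ef0]; exact hM _
    have x1 : F[i].2.1 < X := by rw [← ef1]; exact hM _
    have x2 : F[i].2.2.1 < X := by rw [← ef2]; exact hM _
    have x3 : 2 * F[i].2.2.2 < X := by rw [← ef3]; exact hM _
    have x4 : bs F[i].2.2.2 < X := by rw [← eb0]; exact hM _
    have x5 : bs F[i].2.2.2 + 2 * (B F[i].2.2.2).length < X := by rw [← eb1]; exact hM _
    have htake : F.take (i + 1) = F.take i ++ [F[i]] := by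
      rw [List.take_add_one, List.getElem?_eq_getElem hi]
      rfl
    unfold outer
    refine Runs.seq (runs_seqOps readFront s' ?_ ?_)
    · simp only [readFront, okL, okOp, ideal, St.set, Function.update_apply, fr'.mem, g9, fr'.r5,
        fr'.r6, fr'.r7, fr'.r11, ef0, ef1, ef2, ef3, eb0, eb1]
      norm_num
      simp only [fr'.r5, fr'.r6, fr'.r7, fr'.r11, fr'.mem, g9, ef0, ef1, ef2, ef3, eb0, eb1]
      omega
    · set s1 := idealL readFront s' with hs1
      have q16 : s1.reg 16 = F[i].1 := by
        simp [hs1, readFront, idealL, ideal, St.set, Function.update_apply, fr'.mem, g9, ef0]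
      have q17 : s1.reg 17 = F[i].2.1 := by
        simp [hs1, readFront, idealL, ideal, St.set, Function.update_apply, fr'.mem, g9, fr'.r5,
          ef1]
      have q18 : s1.reg 18 = F[i].2.2.1 := by
        simp [hs1, readFront, idealL, ideal, St.set, Function.update_apply, fr'.mem, g9, fr'.r6,
          ef2]
      have q21 : s1.reg 21 = bs F[i].2.2.2 := by
        simp [hs1, readFront, idealL, ideal, St.set, Function.update_apply, fr'.mem, g9, fr'.r7,
          fr'.r11, ef3, eb0]
      have q22 : s1.reg 22 = bs F[i].2.2.2 + 2 * (B F[i].2.2.2).length := by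
        simp [hs1, readFront, idealL, ideal, St.set, Function.update_apply, fr'.mem, g9, fr'.r7,
          fr'.r11, fr'.r5, ef3, eb1]
      have qo : ∀ r, r ≠ 16 → r ≠ 17 → r ≠ 18 → r ≠ 19 → r ≠ 20 → r ≠ 21 → r ≠ 22 →
          s1.reg r = s'.reg r := by
        intro r a1 a2 a3 a4 a5 a6 a7
        simp [hs1, readFront, idealL, ideal, St.set, Function.update_apply, a1, a2, a3, a4, a5,
          a6, a7]
      have qm : s1.mem = M := by
        simp [hs1, readFront, idealL, ideal, St.set, fr'.mem]
      have qo' : ∀ r, r < 16 ∨ r = 26 → s1.reg r = s'.reg r := by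
        intro r hr
        exact qo r (by omega) (by omega) (by omega) (by omega) (by omega) (by omega) (by omega)
      have fr1 : Frame M (fs + 4 * F.length) bp k1 s1 :=
        ⟨qm, by rw [qo' 5 (by norm_num), fr'.r5], by rw [qo' 6 (by norm_num), fr'.r6],
          by rw [qo' 7 (by norm_num), fr'.r7], by rw [qo' 26 (by norm_num), fr'.r26],
          by rw [qo' 10 (by norm_num), fr'.r10], by rw [qo' 11 (by norm_num), fr'.r11],
          by rw [qo' 12 (by norm_num), fr'.r12]⟩
      refine Runs.seq (inner_runs S i hi _ s1 fr1 (by rw [qo' 9 (by norm_num), g9]) q16 q17 q18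
        q21 q22 (by rw [qo' 13 (by norm_num), g13]) ?_)
      intro s2 τ2 fr2 k9 k13 kτ
      refine Runs.add ?_ ?_
      · rw [k9, fr2.r26]; omega
      · have ee : ∀ r, r ≠ 9 → (s2.set 9 (s2.reg 9 + s2.reg 26)).reg r = s2.reg r := by
          intro r h; rw [St.set_reg_ne _ _ h]
        refine ⟨⟨by rw [St.set_mem, fr2.mem], by rw [ee 5 (by norm_num), fr2.r5],
          by rw [ee 6 (by norm_num), fr2.r6], by rw [ee 7 (by norm_num), fr2.r7],
          by rw [ee 26 (by norm_num), fr2.r26], by rw [ee 10 (by norm_num), fr2.r10],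
          by rw [ee 11 (by norm_num), fr2.r11], by rw [ee 12 (by norm_num), fr2.r12]⟩, ?_, ?_, ?_⟩
        · rw [St.set_reg_self, k9, fr2.r26]; ring
        · rw [ee 13 (by norm_num), k13, htake]
          refine ind_congr ?_
          constructor
          · rintro ((h | ⟨f, hf, h⟩) | h)
            · exact Or.inl h
            · exact Or.inr ⟨f, List.mem_append_left _ hf, h⟩
            · exact Or.inr ⟨_, List.mem_append_right _ (List.mem_singleton.2 rfl), h⟩
          · rintro (h | ⟨f, hf, h⟩)
            · exact Or.inl (Or.inl h)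
            · rcases List.mem_append.1 hf with hf | hf
              · exact Or.inl (Or.inr ⟨f, hf, h⟩)
              · rw [List.mem_singleton] at hf
                rw [hf] at h
                exact Or.inr h
        · rw [htake, List.map_append, List.sum_append]
          simp only [List.map_cons, List.map_nil, List.sum_cons, List.sum_nil, readFront,
            List.length_cons, List.length_nil]
          omega
  · rintro s' τ ⟨fr', g9, g13, gτ⟩
    rw [g9, fr'.r10]
    omega
  · refine ⟨fr, by rw [h9]; ring, ?_, by norm_num⟩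
    rw [h13]
    refine ind_congr ?_
    simp
  · rintro s' τ ⟨fr', g9, g13, gτ⟩
    rw [List.take_length] at g13 gτ
    exact hQ s' _ g13 (by omega)

/-- **Correctness and running time of the query program.** -/
theorem prog_correct {w : ℕ} {M : ℕ → ℕ} {X u v o fs bp k1 : ℕ} {F : List (ℕ × ℕ × ℕ × ℕ)}
    {bs : ℕ → ℕ} {B : ℕ → List (ℕ × ℕ)} (S : Spec w M X u v o fs bp k1 F bs B)
    (T : ℝ) (hT : ((F.map fun f => 30 + 20 * (B f.2.2.2).length).sum + 30 : ℝ) ≤ T) :
    HaltsWithin w prog (start u v M) T
      (ind (M (o + v) = u + 1 ∨ ∃ f ∈ F, ∃ b ∈ B f.2.2.2, cond M k1 f b)) := by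
  have hw := S.hw
  have hM := S.hM
  have hu := S.hu
  have hv := S.hv
  have m0 := S.m0
  have m1 := S.m1
  have m2 := S.m2
  have m3 := S.m3
  have m4 := S.m4
  have x0 : o < X := by rw [← m0]; exact hM _
  have x1 : fs < X := by rw [← m1]; exact hM _
  have x2 : fs + 4 * F.length < X := by rw [← m2]; exact hM _
  have x3 : bp < X := by rw [← m3]; exact hM _
  have x4 : k1 < X := by rw [← m4]; exact hM _
  have x5 := hM (o + v)
  have hrun : Runs w query (start u v M).st (fun s' t => s'.reg 0 =
      ind (M (o + v) = u + 1 ∨ ∃ f ∈ F, ∃ b ∈ B f.2.2.2, cond M k1 f b) ∧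
      t ≤ (F.map fun f => 30 + 20 * (B f.2.2.2).length).sum + 30) := by
    set s0 := (start u v M).st with hs0
    have r0 : s0.reg 0 = u := rfl
    have r1 : s0.reg 1 = v := rfl
    have rm : s0.mem = M := rfl
    have c1 : u * 8 = 8 * u := Nat.mul_comm _ _
    have c2 : v * 8 = 8 * v := Nat.mul_comm _ _
    refine Runs.seq (runs_seqOps init s0 ?_ ?_)
    · simp only [init, okL, okOp, ideal, St.set, Function.update_apply, rm, r0, r1, c1, c2]
      norm_num
      simp only [r0, r1, rm, c1, c2, m0, m1, m2, m3, m4]
      have hw0 : w ≠ 0 := by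
        rintro rfl
        omega
      omega
    · set s1 := idealL init s0 with hs1
      have q0 : s1.reg 0 = u := by
        simp [hs1, init, idealL, ideal, St.set, Function.update_apply, r0]
      have q9 : s1.reg 9 = fs := by
        simp [hs1, init, idealL, ideal, St.set, Function.update_apply, r0, rm, c1, m1]
      have q10 : s1.reg 10 = fs + 4 * F.length := by
        simp [hs1, init, idealL, ideal, St.set, Function.update_apply, r0, rm, c1, m2]
      have q11 : s1.reg 11 = bp := by
        simp [hs1, init, idealL, ideal, St.set, Function.update_apply, r1, rm, c2, m3]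
      have q12 : s1.reg 12 = k1 := by
        simp [hs1, init, idealL, ideal, St.set, Function.update_apply, r0, rm, c1, m4]
      have q13 : s1.reg 13 = 0 := by
        simp [hs1, init, idealL, ideal, St.set, Function.update_apply]
      have q14 : s1.reg 14 = M (o + v) := by
        simp [hs1, init, idealL, ideal, St.set, Function.update_apply, r0, r1, rm, c1, m0]
      have q15 : s1.reg 15 = u + 2 := by
        simp [hs1, init, idealL, ideal, St.set, Function.update_apply, r0]
      have q5 : s1.reg 5 = 1 := by
        simp [hs1, init, idealL, ideal, St.set, Function.update_apply]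
      have q6 : s1.reg 6 = 2 := by
        simp [hs1, init, idealL, ideal, St.set, Function.update_apply]
      have q7 : s1.reg 7 = 3 := by
        simp [hs1, init, idealL, ideal, St.set, Function.update_apply]
      have q26 : s1.reg 26 = 4 := by
        simp [hs1, init, idealL, ideal, St.set, Function.update_apply]
      have qm : s1.mem = M := by
        simp [hs1, init, idealL, ideal, St.set, rm]
      -- the rest, from a state after the direct test
      have fin : ∀ (s2 : St) (t : ℕ), s2.mem = M → (∀ r, r ≠ 13 → s2.reg r = s1.reg r) →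
          s2.reg 13 = ind (M (o + v) = u + 1) → t ≤ 3 →
          Runs w (.seq (.loop 9 10 outer) (seqOps [.const 27 0, .add 0 13 27])) s2
            (fun s' t' => s'.reg 0 =
              ind (M (o + v) = u + 1 ∨ ∃ f ∈ F, ∃ b ∈ B f.2.2.2, cond M k1 f b) ∧
              init.length + (t + t') ≤
                (F.map fun f => 30 + 20 * (B f.2.2.2).length).sum + 30) := by
        intro s2 t k0 k2 k13 kt
        refine Runs.seq (outer_runs S _ s2 ⟨k0, ?_, ?_, ?_, ?_, ?_, ?_, ?_⟩ ?_ k13 ?_)
        · rw [k2 5 (by norm_num), q5]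
        · rw [k2 6 (by norm_num), q6]
        · rw [k2 7 (by norm_num), q7]
        · rw [k2 26 (by norm_num), q26]
        · rw [k2 10 (by norm_num), q10]
        · rw [k2 11 (by norm_num), q11]
        · rw [k2 12 (by norm_num), q12]
        · rw [k2 9 (by norm_num), q9]
        · intro s3 τ3 g13 gτ
          refine runs_seqOps _ s3 ?_ ?_
          · have : ind (M (o + v) = u + 1 ∨ ∃ f ∈ F, ∃ b ∈ B f.2.2.2, cond M k1 f b) ≤ 1 := by
              unfold ind; split_ifs <;> norm_num
            simp only [okL, okOp, ideal, St.set, Function.update_apply]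
            norm_num
            rw [g13]
            omega
          · refine ⟨?_, ?_⟩
            · simp [idealL, ideal, St.set, Function.update_apply, g13]
            · simp only [init, List.length_cons, List.length_nil]
              omega
      refine Runs.seq (Runs.ite ?_ ?_)
      · intro h1
        rw [q0, q14] at h1
        refine Runs.ite ?_ ?_
        · intro h2
          rw [q14, q15] at h2
          refine Runs.const (by omega) ?_
          refine fin _ _ (by rw [St.set_mem, qm]) (fun r hr => by rw [St.set_reg_ne _ _ hr]) ?_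
            (by norm_num)
          rw [St.set_reg_self]
          unfold ind
          rw [if_pos (by omega)]
        · intro h2
          rw [q14, q15] at h2
          refine Runs.skip (fin _ _ qm (fun _ _ => rfl) ?_ (by norm_num))
          rw [q13]
          unfold ind
          rw [if_neg (by omega)]
      · intro h1
        rw [q0, q14] at h1
        refine Runs.skip (fin _ _ qm (fun _ _ => rfl) ?_ (by norm_num))
        rw [q13]
        unfold ind
        rw [if_neg (by omega)]
  obtain ⟨s', t, he, h1, h2⟩ := hrun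
  have hcomp := compile_correct w prog he 0 (by
    intro i hi
    rw [Nat.zero_add]
    exact List.getElem?_append_left hi)
  refine ⟨t, ?_, ?_, ?_⟩
  · refine le_trans ?_ hT
    exact_mod_cast h2
  · have hc : (step w prog)^[t] (start u v M) = ⟨0 + query.size, s'⟩ := hcomp
    rw [hc]
    left
    show prog[0 + query.size]? = some Instr.halt
    rw [Nat.zero_add]
    unfold prog
    rw [List.getElem?_append_right (by rw [Cmd.length_compile])]
    rw [Cmd.length_compile]
    simp
  · have hc : (step w prog)^[t] (start u v M) = ⟨0 + query.size, s'⟩ := hcomp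
    rw [hc]
    exact h1

end Pool.Agent.U54.KR
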